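import Mathlib

namespace Pool.Agent.H.MP_6562b9_an

open Set Metric MeasureTheory Filter Topology

lemma vit (S A B : Set ℝ) (θ R : ℝ) (hθ : 0 ≤ θ)
    (h : ∀ t ∈ A, ∃ r, 0 < r ∧ r ≤ R ∧ ball t r ⊆ B ∧
      volume (S ∩ ball t (4 * r)) ≤ ENNReal.ofReal (θ * r)) :
    volume (S ∩ A) ≤ ENNReal.ofReal θ * volume B := by
  choose! r hr hR hb hv using h
  obtain ⟨u, hu, hd, hcov⟩ := Vitali.exists_disjoint_subfamily_covering_enlargement_ball A
    (fun x => x) r R hR 4 (by norm_num)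
  have hcount : u.Countable := hd.countable_of_isOpen (fun _ _ => isOpen_ball)
    (fun x hx => nonempty_ball.2 (hr x (hu hx)))
  have h1 : S ∩ A ⊆ ⋃ x ∈ u, S ∩ ball x (4 * r x) := by
    intro a ha
    obtain ⟨b, hb, hab⟩ := hcov a ha.2
    exact mem_biUnion hb ⟨ha.1, hab (mem_ball_self (hr a ha.2))⟩
  have h2 : ∀ x ∈ u, volume (S ∩ ball x (4 * r x)) ≤ ENNReal.ofReal θ * volume (ball x (r x)) := by
    intro x hx
    refine (hv x (hu hx)).trans ?_
    rw [Real.volume_ball, ← ENNReal.ofReal_mul hθ]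
    have := hr x (hu hx)
    exact ENNReal.ofReal_le_ofReal (by nlinarith)
  have hU : (⋃ x ∈ u, ball x (r x)) ⊆ B := iUnion₂_subset fun x hx => hb x (hu hx)
  calc volume (S ∩ A) ≤ ∑' x : u, volume (S ∩ ball (x : ℝ) (4 * r x)) :=
        (measure_mono h1).trans (measure_biUnion_le volume hcount _)
    _ ≤ ∑' x : u, ENNReal.ofReal θ * volume (ball (x : ℝ) (r x)) :=
        ENNReal.tsum_le_tsum fun x => h2 x x.2
    _ = ENNReal.ofReal θ * volume (⋃ x ∈ u, ball x (r x)) := by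
        rw [measure_biUnion hcount hd (fun _ _ => measurableSet_ball), ENNReal.tsum_mul_left]
    _ ≤ _ := by gcongr

/-- geometric summation over levels -/
lemma geo (A : ℕ → Set ℝ) (M x : ℝ) (hM : 0 ≤ M) (hx0 : 0 ≤ x) (hx : x < 1)
    (h : ∀ i, volume (A i) ≤ ENNReal.ofReal (M * x ^ i)) :
    volume (⋃ i, A i) ≤ ENNReal.ofReal (M * (1 - x)⁻¹) := by
  refine (measure_iUnion_le _).trans ((ENNReal.tsum_le_tsum h).trans ?_)
  have hs : Summable fun i : ℕ => M * x ^ i := (summable_geometric_of_lt_one hx0 hx).mul_left M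
  rw [← ENNReal.ofReal_tsum_of_nonneg (fun i => by positivity) hs, tsum_mul_left,
    tsum_geometric_of_lt_one hx0 hx]

/-- image of a set under an affine map -/
lemma aff (S T : Set ℝ) (t0 r : ℝ) (hr : 0 < r) (h : ∀ t ∈ S, (t - t0) / r ∈ T) :
    volume S ≤ ENNReal.ofReal r * volume T := by
  have h1 : S ⊆ (fun t => r⁻¹ * t) ⁻¹' ((fun x => (-t0 / r) + x) ⁻¹' T) := by
    intro t ht
    have := h t ht
    simp only [mem_preimage]
    convert this using 1
    field_simp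
    ring
  refine (measure_mono h1).trans ?_
  rw [Real.volume_preimage_mul_left (inv_ne_zero hr.ne'), measure_preimage_add, inv_inv,
    abs_of_pos hr]

section
variable {E : Type} [NormedAddCommGroup E] [NormedSpace ℝ E]

def Lp (a b K : ℝ) (f : ℝ → E) : Prop :=
  ∀ s ∈ Ioo a b, ∀ t ∈ Ioo a b, ‖f s - f t‖ ≤ K * |s - t|

def Bd (a b K : ℝ) (f : ℝ → E) : Prop := ∀ t ∈ Ioo a b, ‖f t‖ ≤ K

def L (a b : ℝ) : ℕ → ℝ → (ℝ → E) → Prop
  | 0, K, f => Lp a b K f
  | k + 1, K, f => Lp a b K f ∧ (∀ t ∈ Ioo a b, DifferentiableAt ℝ f t) ∧ L a b k K (deriv f)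

def B (a b : ℝ) (k : ℕ) (K : ℝ) (f : ℝ → E) : Prop := L a b k K f ∧ Bd a b K f

variable {a b K : ℝ} {k : ℕ} {f g : ℝ → E}

lemma Lp.bd (h : Lp a b K f) (hK : 0 ≤ K) : Bd a b K (deriv f) := by
  intro t ht
  refine norm_deriv_le_of_lip' hK ?_
  filter_upwards [isOpen_Ioo.mem_nhds ht] with s hs
  exact h s hs t ht

lemma Lp.of (hd : ∀ t ∈ Ioo a b, DifferentiableAt ℝ f t) (h : Bd a b K (deriv f)) :
    Lp a b K f := fun s hs t ht =>
  (convex_Ioo a b).norm_image_sub_le_of_norm_deriv_le hd h ht hs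

omit [NormedSpace ℝ E] in
lemma Lp.mono {K' : ℝ} (h : Lp a b K f) (hK : K ≤ K') : Lp a b K' f := fun s hs t ht =>
  (h s hs t ht).trans (mul_le_mul_of_nonneg_right hK (abs_nonneg _))

lemma L.mono {K' : ℝ} (h : L a b k K f) (hK : K ≤ K') : L a b k K' f := by
  induction k generalizing f with
  | zero => exact Lp.mono h hK
  | succ k ih => exact ⟨h.1.mono hK, h.2.1, ih h.2.2⟩

lemma B.mono {K' : ℝ} (h : B a b k K f) (hK : K ≤ K') : B a b k K' f :=
  ⟨h.1.mono hK, fun t ht => (h.2 t ht).trans hK⟩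

lemma L.lp (h : L a b k K f) : Lp a b K f := by
  cases k with
  | zero => exact h
  | succ k => exact h.1

lemma L.pred (h : L a b (k + 1) K f) : L a b k K f := by
  induction k generalizing f with
  | zero => exact h.1
  | succ k ih => exact ⟨h.1, h.2.1, ih h.2.2⟩

lemma ev_eq (h : ∀ t ∈ Ioo a b, f t = g t) {t : ℝ} (ht : t ∈ Ioo a b) : f =ᶠ[𝓝 t] g := by
  filter_upwards [isOpen_Ioo.mem_nhds ht] with s hs using h s hs

lemma L.congr (h : L a b k K f) (e : ∀ t ∈ Ioo a b, f t = g t) : L a b k K g := by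
  have hl : ∀ {f g : ℝ → E}, Lp a b K f → (∀ t ∈ Ioo a b, f t = g t) → Lp a b K g := by
    intro f g h e s hs t ht
    rw [← e s hs, ← e t ht]; exact h s hs t ht
  induction k generalizing f g with
  | zero => exact hl h e
  | succ k ih =>
    exact ⟨hl h.1 e, fun t ht => (h.2.1 t ht).congr_of_eventuallyEq (ev_eq e ht).symm,
      ih h.2.2 fun t ht => (ev_eq e ht).deriv_eq⟩

lemma B.congr (h : B a b k K f) (e : ∀ t ∈ Ioo a b, f t = g t) : B a b k K g :=
  ⟨h.1.congr e, fun t ht => e t ht ▸ h.2 t ht⟩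

lemma L.add {K' : ℝ} (h : L a b k K f) (h' : L a b k K' g) :
    L a b k (K + K') (fun t => f t + g t) := by
  have hl : ∀ {f g : ℝ → E}, Lp a b K f → Lp a b K' g → Lp a b (K + K') (fun t => f t + g t) := by
    intro f g h h' s hs t ht
    have e : f s + g s - (f t + g t) = (f s - f t) + (g s - g t) := by abel
    beta_reduce
    rw [e, add_mul]
    exact (norm_add_le _ _).trans (add_le_add (h s hs t ht) (h' s hs t ht))
  induction k generalizing f g with
  | zero => exact hl h h'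
  | succ k ih =>
    refine ⟨hl h.1 h'.1, fun t ht => (h.2.1 t ht).add (h'.2.1 t ht), (ih h.2.2 h'.2.2).congr ?_⟩
    intro t ht
    exact (deriv_fun_add (h.2.1 t ht) (h'.2.1 t ht)).symm

lemma B.add {K' : ℝ} (h : B a b k K f) (h' : B a b k K' g) :
    B a b k (K + K') (fun t => f t + g t) :=
  ⟨h.1.add h'.1, fun t ht => (norm_add_le _ _).trans (add_le_add (h.2 t ht) (h'.2 t ht))⟩

lemma B.pred (h : B a b (k + 1) K f) : B a b k K f := ⟨h.1.pred, h.2⟩

lemma B.deriv (h : B a b (k + 1) K f) (hK : 0 ≤ K) : B a b k K (deriv f) :=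
  ⟨h.1.2.2, h.1.1.bd hK⟩

lemma B.succ (h0 : Bd a b K f) (hd : ∀ t ∈ Ioo a b, DifferentiableAt ℝ f t)
    (h : B a b k K (_root_.deriv f)) : B a b (k + 1) K f :=
  ⟨⟨Lp.of hd h.2, hd, h.1⟩, h0⟩

lemma L.ilp (h : L a b k K f) {i : ℕ} (hi : i ≤ k) : Lp a b K (deriv^[i] f) := by
  induction k generalizing f i with
  | zero => obtain rfl : i = 0 := by omega
            exact h
  | succ k ih =>
    cases i with
    | zero => exact h.1
    | succ i => exact ih h.2.2 (by omega)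

lemma L.idiff (h : L a b k K f) {i : ℕ} (hi : i < k) :
    ∀ t ∈ Ioo a b, DifferentiableAt ℝ (deriv^[i] f) t := by
  induction k generalizing f i with
  | zero => omega
  | succ k ih =>
    cases i with
    | zero => exact h.2.1
    | succ i => exact ih h.2.2 (by omega)

lemma L.ibd (h : L a b k K f) (hK : 0 ≤ K) {i : ℕ} (h1 : 1 ≤ i) (hi : i ≤ k) :
    Bd a b K (deriv^[i] f) := by
  obtain ⟨j, rfl⟩ : ∃ j, i = j + 1 := ⟨i - 1, by omega⟩
  rw [Function.iterate_succ_apply']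
  exact (h.ilp (by omega)).bd hK

lemma chain {η : ℝ} (hη : 0 ≤ η)
    (hd : ∀ i < k, ∀ t ∈ Ioo (-1 : ℝ) 1, DifferentiableAt ℝ (deriv^[i] g) t)
    (h0 : ∀ i, 1 ≤ i → i ≤ k → ‖deriv^[i] g 0‖ ≤ η) (hl : Lp (-1) 1 η (deriv^[k] g)) :
    L (-1) 1 k ((k + 1) * η) g := by
  induction k generalizing g with
  | zero => simpa [L] using hl
  | succ k ih =>
    have h1 := ih (g := deriv g) (fun i hi => hd (i + 1) (by omega))
      (fun i h1 h2 => h0 (i + 1) (by omega) (by omega)) hl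
    have h2 : Bd (-1) 1 ((((k + 1 : ℕ) : ℝ) + 1) * η) (deriv g) := by
      intro t ht
      have h3 := h1.lp t ht 0 (by simp)
      have h4 : ‖deriv g 0‖ ≤ η := h0 1 le_rfl (by omega)
      have h5 : |t - 0| ≤ 1 := by rw [sub_zero, abs_le]; exact ⟨ht.1.le, ht.2.le⟩
      have h6 := norm_add_le (deriv g t - deriv g 0) (deriv g 0)
      rw [sub_add_cancel] at h6
      have h7 : ((k : ℝ) + 1) * η * |t - 0| ≤ (k + 1) * η := mul_le_of_le_one_right (by positivity) h5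
      push_cast
      linarith
    exact ⟨Lp.of (hd 0 (by omega)) h2, hd 0 (by omega), h1.mono (by push_cast; nlinarith)⟩

variable {F : Type} [NormedAddCommGroup F] [NormedSpace ℝ F]

def sc (T : E →L[ℝ] F) (t0 r : ℝ) (f : ℝ → E) : ℝ → F := fun τ => T (f (t0 + r * τ))

lemma sc_iter (h : L a b k K f) (T : E →L[ℝ] F) (t0 r : ℝ) {a' b' : ℝ}
    (hm : ∀ τ ∈ Ioo a' b', t0 + r * τ ∈ Ioo a b) {i : ℕ} (hi : i ≤ k) :
    (∀ τ ∈ Ioo a' b', deriv^[i] (sc T t0 r f) τ = r ^ i • T (deriv^[i] f (t0 + r * τ))) ∧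
    (i < k → ∀ τ ∈ Ioo a' b', DifferentiableAt ℝ (deriv^[i] (sc T t0 r f)) τ) := by
  have key : ∀ i < k, ∀ τ ∈ Ioo a' b', HasDerivAt (fun τ => r ^ i • T (deriv^[i] f (t0 + r * τ)))
      (r ^ (i + 1) • T (deriv^[i + 1] f (t0 + r * τ))) τ := by
    intro i hi τ hτ
    have h1 := (h.idiff hi _ (hm τ hτ)).hasDerivAt
    have h2 : HasDerivAt (fun τ : ℝ => t0 + r * τ) r τ := by
      simpa using ((hasDerivAt_id τ).const_mul r).const_add t0
    have h3 := (T.hasFDerivAt.comp_hasDerivAt τ (h1.scomp τ h2)).fun_const_smul (r ^ i)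
    rw [Function.iterate_succ_apply']
    refine h3.congr_deriv ?_
    rw [map_smul, smul_smul, pow_succ]
  have h1 : ∀ i ≤ k, ∀ τ ∈ Ioo a' b',
      deriv^[i] (sc T t0 r f) τ = r ^ i • T (deriv^[i] f (t0 + r * τ)) := by
    intro i
    induction i with
    | zero => intro _ τ _; simp [sc]
    | succ i ih =>
      intro hi τ hτ
      rw [Function.iterate_succ_apply', (ev_eq (ih (by omega)) hτ).deriv_eq]
      exact (key i (by omega) τ hτ).deriv
  exact ⟨h1 i hi, fun hi' τ hτ =>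
    (key i hi' τ hτ).differentiableAt.congr_of_eventuallyEq (ev_eq (h1 i hi) hτ)⟩

lemma sc_L (h : L a b k K f) (T : E →L[ℝ] F) (t0 r : ℝ) (hr : 0 < r)
    (hm : ∀ τ ∈ Ioo (-1 : ℝ) 1, t0 + r * τ ∈ Ioo a b) {η : ℝ} (hη : 0 ≤ η)
    (h1 : ∀ i, 1 ≤ i → i ≤ k → r ^ i * ‖T (deriv^[i] f t0)‖ ≤ η)
    (h2 : ∀ s ∈ Ioo a b, ∀ t ∈ Ioo a b,
      r ^ (k + 1) * ‖T (deriv^[k] f s - deriv^[k] f t)‖ ≤ η * |s - t|) :
    L (-1) 1 k ((k + 1) * η) (sc T t0 r f) := by
  refine chain hη (fun i hi => (sc_iter h T t0 r hm hi.le).2 hi) ?_ ?_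
  · intro i hi1 hi
    rw [(sc_iter h T t0 r hm hi).1 0 (by simp), norm_smul, Real.norm_eq_abs,
      abs_of_pos (by positivity), mul_zero, add_zero]
    exact h1 i hi1 hi
  · intro s hs t ht
    rw [(sc_iter h T t0 r hm le_rfl).1 s hs, (sc_iter h T t0 r hm le_rfl).1 t ht, ← smul_sub,
      ← map_sub, norm_smul, Real.norm_eq_abs, abs_of_pos (by positivity)]
    have h3 := h2 _ (hm s hs) _ (hm t ht)
    have e : t0 + r * s - (t0 + r * t) = r * (s - t) := by ring
    rw [e, abs_mul, abs_of_pos hr, pow_succ] at h3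
    refine le_of_mul_le_mul_left ?_ hr
    linarith

lemma sc_L' (h : L a b k K f) (hK : 0 ≤ K) (T : E →L[ℝ] F) (hT : ∀ x, ‖T x‖ ≤ ‖x‖) (t0 r : ℝ)
    (hr : 0 < r) (hr1 : r ≤ 1) (hm : ∀ τ ∈ Ioo (-1 : ℝ) 1, t0 + r * τ ∈ Ioo a b) :
    L (-1) 1 k ((k + 1) * K) (sc T t0 r f) := by
  have ht0 : t0 ∈ Ioo a b := by simpa using hm 0 (by simp)
  refine sc_L h T t0 r hr hm hK ?_ ?_
  · intro i h1 hi
    have := (hT _).trans (h.ibd hK h1 hi t0 ht0)
    calc _ ≤ 1 * K := mul_le_mul (pow_le_one₀ hr.le hr1) this (norm_nonneg _) zero_le_one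
      _ = K := one_mul K
  · intro s hs t ht
    have := (hT _).trans (h.ilp le_rfl s hs t ht)
    calc _ ≤ 1 * (K * |s - t|) :=
          mul_le_mul (pow_le_one₀ hr.le hr1) this (norm_nonneg _) zero_le_one
      _ = _ := one_mul _

lemma bil {A : ℝ → E →L[ℝ] F} (hK : 0 ≤ K) (hA : B a b k K A) (hf : B a b k K f) :
    B a b k (2 ^ (k + 1) * K ^ 2) (fun t => A t (f t)) := by
  have hb : ∀ {A : ℝ → E →L[ℝ] F} {f : ℝ → E} {k : ℕ}, Bd a b K A → Bd a b K f →
      Bd a b (2 ^ (k + 1) * K ^ 2) (fun t => A t (f t)) := by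
    intro A f k hA hf t ht
    refine ((A t).le_opNorm _).trans ?_
    have h1 : (1 : ℝ) ≤ 2 ^ (k + 1) := one_le_pow₀ (by norm_num)
    have := mul_le_mul (hA t ht) (hf t ht) (norm_nonneg _) hK
    nlinarith [sq_nonneg K]
  induction k generalizing A f with
  | zero =>
    refine ⟨?_, hb hA.2 hf.2⟩
    intro s hs t ht
    have e : A s (f s) - A t (f t) = (A s - A t) (f s) + A t (f s - f t) := by simp
    beta_reduce
    rw [e]
    refine (norm_add_le _ _).trans ?_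
    have h1 := ((A s - A t).le_opNorm (f s)).trans
      (mul_le_mul (hA.1 s hs t ht) (hf.2 s hs) (norm_nonneg _) (by positivity))
    have h2 := ((A t).le_opNorm (f s - f t)).trans
      (mul_le_mul (hA.2 t ht) (hf.1 s hs t ht) (norm_nonneg _) hK)
    have e2 : (2 : ℝ) ^ (0 + 1) * K ^ 2 * |s - t| = K * |s - t| * K + K * (K * |s - t|) := by ring
    linarith
  | succ k ih =>
    have hd : ∀ t ∈ Ioo a b, HasDerivAt (fun t => A t (f t))
        (deriv A t (f t) + A t (deriv f t)) t := fun t ht =>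
      (hA.1.2.1 t ht).hasDerivAt.clm_apply (hf.1.2.1 t ht).hasDerivAt
    refine B.succ (hb hA.2 hf.2) (fun t ht => (hd t ht).differentiableAt) ?_
    refine (((ih (hA.deriv hK) hf.pred).add (ih hA.pred (hf.deriv hK))).congr
      fun t ht => (hd t ht).deriv.symm).mono (le_of_eq (by ring))

end

lemma comp {E : Type} [NormedAddCommGroup E] [NormedSpace ℝ E] (U V : Set E) (hU : IsOpen U)
    (hV : IsCompact V) (hc : Convex ℝ V) (hVU : V ⊆ U) (K : ℝ) (hK : 0 ≤ K) (k : ℕ) :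
    ∀ (F : Type) [NormedAddCommGroup F] [NormedSpace ℝ F] (ψ : E → F),
      ContDiffOn ℝ ((k + 1 : ℕ) : WithTop ℕ∞) ψ U → ∃ K', 0 ≤ K' ∧ ∀ (a b : ℝ) (f : ℝ → E),
        B a b k K f → (∀ t ∈ Ioo a b, f t ∈ V) → B a b k K' (fun t => ψ (f t)) := by
  have hb : ∀ (F : Type) [NormedAddCommGroup F] (ψ : E → F), ContinuousOn ψ U →
      ∃ M, 0 ≤ M ∧ ∀ x ∈ V, ‖ψ x‖ ≤ M := by
    intro F _ ψ h
    obtain ⟨M, hM⟩ := hV.exists_bound_of_continuousOn (h.mono hVU)
    exact ⟨max M 0, le_max_right _ _, fun x hx => (hM x hx).trans (le_max_left _ _)⟩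
  induction k with
  | zero =>
    intro F _ _ ψ h
    obtain ⟨M, hM0, hM⟩ := hb F ψ h.continuousOn
    obtain ⟨N, hN0, hN⟩ := hb _ (fderiv ℝ ψ)
      (h.continuousOn_fderiv_of_isOpen hU (by norm_num))
    refine ⟨M + N * K, by positivity, fun a b f hf hfV => ⟨?_, fun t ht => ?_⟩⟩
    · intro s hs t ht
      have h1 := hc.norm_image_sub_le_of_norm_fderiv_le (𝕜 := ℝ) (f := ψ) (fun x hx =>
        (h.differentiableOn (by norm_num)).differentiableAt (hU.mem_nhds (hVU hx))) hN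
        (hfV t ht) (hfV s hs)
      have h2 := mul_le_mul_of_nonneg_left (hf.1 s hs t ht) hN0
      have h3 := mul_nonneg hM0 (abs_nonneg (s - t))
      beta_reduce
      nlinarith
    · have := hM _ (hfV t ht)
      have h3 := mul_nonneg hN0 hK
      beta_reduce
      linarith
  | succ k ih =>
    intro F _ _ ψ h
    obtain ⟨M, hM0, hM⟩ := hb F ψ h.continuousOn
    obtain ⟨N, hN0, hN⟩ := ih _ (fderiv ℝ ψ)
      (h.fderiv_of_isOpen hU (by push_cast; exact le_rfl))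
    refine ⟨M + 2 ^ (k + 1) * (N + K) ^ 2, by positivity, fun a b f hf hfV => ?_⟩
    have hd : ∀ t ∈ Ioo a b, HasDerivAt (fun t => ψ (f t)) (fderiv ℝ ψ (f t) (deriv f t)) t :=
      fun t ht => ((h.differentiableOn (by simp)).differentiableAt
        (hU.mem_nhds (hVU (hfV t ht)))).hasFDerivAt.comp_hasDerivAt t (hf.1.2.1 t ht).hasDerivAt
    refine B.succ (fun t ht => (hM _ (hfV t ht)).trans (le_add_of_nonneg_right (by positivity)))
      (fun t ht => (hd t ht).differentiableAt) ?_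
    have h1 := bil (K := N + K) (by positivity) ((hN a b f hf.pred hfV).mono (by linarith))
      ((hf.deriv hK).mono (by linarith))
    exact (h1.congr fun t ht => (hd t ht).deriv.symm).mono (by linarith)

end Pool.Agent.H.MP_6562b9_an
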