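import Pool.Agent.H.MP_6562b9_an.A

namespace Pool.Agent.H.MP_6562b9_an

open Set Metric MeasureTheory Filter Topology

def bad {E : Type} [NormedAddCommGroup E] [NormedSpace ℝ E] (j : ℕ) (D : ℝ) (f : ℝ → E) : Set ℝ :=
  {t | ∃ i, 1 ≤ i ∧ i < j ∧ ‖f t‖ ^ (j - i) < D ^ i * ‖deriv^[i] f t‖ ^ j}

noncomputable def sm (γ : ℝ) : ℝ →L[ℝ] ℝ := γ • ContinuousLinearMap.id ℝ ℝ

lemma sm_apply (γ x : ℝ) : sm γ x = γ * x := by simp [sm]

lemma bad_sc {a b K : ℝ} {k j : ℕ} {f : ℝ → ℝ} (h : L a b k K f) (hj : j ≤ k + 1) {γ r t0 D D' : ℝ}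
    (hγ : 0 < γ) (hr : 0 < r) (hm : ∀ τ ∈ Ioo (-1 : ℝ) 1, t0 + r * τ ∈ Ioo a b) (hD : 0 ≤ D)
    (hD' : D ≤ D' * (γ * r ^ j)) {τ : ℝ} (hτ : τ ∈ Ioo (-1 : ℝ) 1) (hb : t0 + r * τ ∈ bad j D f) :
    τ ∈ bad j D' (sc (sm γ) t0 r f) := by
  obtain ⟨i, h1, hi, hb⟩ := hb
  refine ⟨i, h1, hi, ?_⟩
  rw [(sc_iter h (sm γ) t0 r hm (by omega : i ≤ k)).1 τ hτ]
  simp only [sc, sm_apply, norm_smul, norm_mul, Real.norm_eq_abs, abs_of_pos hγ,
    abs_of_pos (pow_pos hr i)] at hb ⊢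
  obtain ⟨x, hx⟩ : ∃ x, x = |f (t0 + r * τ)| := ⟨_, rfl⟩
  obtain ⟨y, hy⟩ : ∃ y, y = |deriv^[i] f (t0 + r * τ)| := ⟨_, rfl⟩
  rw [← hx, ← hy] at hb ⊢
  have hy0 : 0 ≤ y := hy ▸ abs_nonneg _
  obtain ⟨d, rfl⟩ : ∃ d, j = i + d := ⟨j - i, by omega⟩
  rw [Nat.add_sub_cancel_left] at hb ⊢
  have h2 : D ^ i ≤ (D' * (γ * r ^ (i + d))) ^ i := pow_le_pow_left₀ hD hD' i
  calc (γ * x) ^ d = γ ^ d * x ^ d := mul_pow _ _ _
    _ < γ ^ d * (D ^ i * y ^ (i + d)) := mul_lt_mul_of_pos_left hb (by positivity)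
    _ ≤ γ ^ d * ((D' * (γ * r ^ (i + d))) ^ i * y ^ (i + d)) := by gcongr
    _ = _ := by rw [mul_pow, mul_pow, mul_pow, mul_pow, ← pow_mul, ← pow_mul, pow_add γ]; ring

lemma sub (u : ℝ → ℝ) (c l : ℝ) (hc : 0 < c)
    (hd : ∀ t ∈ Ioo (-1 : ℝ) 1, DifferentiableAt ℝ u t)
    (hl : ∀ t ∈ Ioo (-1 : ℝ) 1, c ≤ |deriv u t|) :
    volume {t | t ∈ Ioo (-1 : ℝ) 1 ∧ |u t| ≤ l} ≤ ENNReal.ofReal (2 * l / c) := by
  refine (Real.volume_le_diam _).trans (Metric.ediam_le ?_)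
  have key : ∀ s t, s ∈ Ioo (-1 : ℝ) 1 ∧ |u s| ≤ l → t ∈ Ioo (-1 : ℝ) 1 ∧ |u t| ≤ l → s < t →
      t - s ≤ 2 * l / c := by
    intro s t hs ht hst
    have hsub : Icc s t ⊆ Ioo (-1 : ℝ) 1 := fun x hx =>
      ⟨hs.1.1.trans_le hx.1, hx.2.trans_lt ht.1.2⟩
    obtain ⟨x, hx, e⟩ := exists_deriv_eq_slope u hst
      (fun x hx => (hd x (hsub hx)).continuousAt.continuousWithinAt)
      (fun x hx => (hd x (hsub (Ioo_subset_Icc_self hx))).differentiableWithinAt)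
    have h1 := hl x (hsub (Ioo_subset_Icc_self hx))
    rw [e, abs_div, abs_of_pos (sub_pos.2 hst), le_div_iff₀ (sub_pos.2 hst)] at h1
    rw [le_div_iff₀ hc]
    have h2 := abs_sub (u t) (u s)
    linarith [hs.2, ht.2]
  intro s hs t ht
  rw [edist_dist, Real.dist_eq]
  refine ENNReal.ofReal_le_ofReal ?_
  rcases lt_trichotomy s t with h | h | h
  · rw [abs_sub_comm, abs_of_pos (sub_pos.2 h)]; exact key s t hs ht h
  · subst h
    have := (abs_nonneg _).trans hs.2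
    simp only [sub_self, abs_zero]; positivity
  · rw [abs_of_pos (sub_pos.2 h)]; exact key t s ht hs h

lemma lev (P : ℕ → Prop) (h0 : P 0) (h : ∃ l, ¬ P l) : ∃ l, P l ∧ ¬ P (l + 1) := by
  by_contra hc
  push Not at hc
  obtain ⟨l, hl⟩ := h
  exact hl (Nat.rec h0 hc l)

def HH (j k m : ℕ) : Prop :=
  ∀ K c : ℝ, 0 < c → ∃ C, 0 ≤ C ∧ ∀ m', 1 ≤ m' → m' < m → ∀ φ : ℝ → ℝ, L (-1) 1 k K φ →
    (∀ t ∈ Ioo (-1 : ℝ) 1, c ≤ |deriv^[m'] φ t|) → ∀ δ, 0 < δ →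
      volume (bad j (δ ^ (j - 1)) φ ∩ Ioo (-3 / 4) (3 / 4)) ≤ ENNReal.ofReal (C * δ)

lemma loc {j k m : ℕ} (hm : 2 ≤ m) (hmj : m ≤ j) (hj : j ≤ k + 1) (ih : HH j k m) (K Λ : ℝ)
    (hK : 1 ≤ K) (hΛ : 1 ≤ Λ) : ∃ C, 0 ≤ C ∧ ∀ φ : ℝ → ℝ, L (-1) 1 k K φ →
      ∀ t0 ∈ Ioo (-3 / 4 : ℝ) (3 / 4), ∀ σ, 0 < σ → σ ≤ K →
      (∀ i, 1 ≤ i → i < m → |deriv^[i] φ t0| ≤ σ ^ (m - i)) →
      (∃ i, 1 ≤ i ∧ i < m ∧ (σ / Λ) ^ (m - i) < |deriv^[i] φ t0|) →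
      ∃ r, 0 < r ∧ r ≤ 1 ∧
        (∀ t ∈ ball t0 r, t ∈ Ioo (-1 : ℝ) 1 ∧ |deriv^[m - 1] φ t| ≤ 2 * σ) ∧
        ∀ δ δ', 0 < δ → 0 < δ' → δ ^ (j - 1) ≤ δ' ^ (j - 1) * σ ^ (j - m) →
          volume (bad j (δ ^ (j - 1)) φ ∩ ball t0 (4 * r)) ≤ ENNReal.ofReal (C * δ' * r) := by
  have hK0 : 0 < K := by linarith
  obtain ⟨e1, he1⟩ : ∃ e1 : ℝ, e1 = 1 / (4 * K) := ⟨_, rfl⟩
  have he10 : 0 < e1 := by rw [he1]; positivity
  have he1K : e1 * K = 1 / 4 := by rw [he1]; field_simp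
  have he11 : e1 ≤ 1 := by nlinarith
  obtain ⟨K1, hK1⟩ : ∃ K1 : ℝ, K1 = (k + 1) * K := ⟨_, rfl⟩
  have hK10 : 0 < K1 := by rw [hK1]; positivity
  obtain ⟨c1, hc1⟩ : ∃ c1 : ℝ, c1 = (e1 / Λ) ^ j := ⟨_, rfl⟩
  have hc10 : 0 < c1 := by rw [hc1]; positivity
  obtain ⟨e2, he2⟩ : ∃ e2 : ℝ, e2 = min 1 (c1 / (2 * K1)) := ⟨_, rfl⟩
  have he20 : 0 < e2 := by rw [he2]; positivity
  have he21 : e2 ≤ 1 := he2 ▸ min_le_left _ _
  have he2K : K1 * e2 ≤ c1 / 2 := by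
    have : e2 ≤ c1 / (2 * K1) := he2 ▸ min_le_right _ _
    rw [le_div_iff₀ (by positivity)] at this
    linarith
  obtain ⟨C, hC0, hC⟩ := ih ((k + 1) * K1) (e2 ^ j * (c1 / 2)) (by positivity)
  refine ⟨C / (e1 * e2) ^ 2 * (16 / 3), by positivity, ?_⟩
  intro φ hφ t0 ht0 σ hσ hσK hup ⟨i0, hi1, hi0, hlo⟩
  have hr1 : e1 * σ ≤ 1 / 4 := he1K ▸ mul_le_mul_of_nonneg_left hσK he10.le
  have hm1 : ∀ τ ∈ Ioo (-1 : ℝ) 1, t0 + e1 * σ * τ ∈ Ioo (-1 : ℝ) 1 := by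
    intro τ hτ
    have := mul_pos he10 hσ
    constructor <;> nlinarith [hτ.1, hτ.2, ht0.1, ht0.2]
  have hm2 : ∀ τ ∈ Ioo (-1 : ℝ) 1, 0 + e2 * τ ∈ Ioo (-1 : ℝ) 1 := by
    intro τ hτ
    constructor <;> nlinarith [hτ.1, hτ.2]
  have ht0' : t0 ∈ Ioo (-1 : ℝ) 1 := ⟨by linarith [ht0.1], by linarith [ht0.2]⟩
  obtain ⟨g, hg⟩ : ∃ g, g = sc (sm (σ ^ m)⁻¹) t0 (e1 * σ) φ := ⟨_, rfl⟩
  have hpw : ∀ i, m ≤ i → (e1 * σ) ^ i * (σ ^ m)⁻¹ ≤ 1 := by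
    intro i hi
    obtain ⟨d, rfl⟩ : ∃ d, i = m + d := ⟨i - m, by omega⟩
    have e : (e1 * σ) ^ (m + d) * (σ ^ m)⁻¹ = e1 ^ m * (e1 * σ) ^ d := by
      rw [pow_add, mul_pow]; field_simp
    rw [e]
    exact mul_le_one₀ (pow_le_one₀ he10.le he11) (by positivity)
      (pow_le_one₀ (by positivity) (by linarith))
  have hgL : L (-1) 1 k K1 g := by
    rw [hg, hK1]
    refine sc_L hφ _ t0 _ (by positivity) hm1 hK0.le ?_ ?_
    · intro i h1 hi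
      rw [sm_apply, norm_mul, Real.norm_eq_abs, Real.norm_eq_abs, abs_of_pos (by positivity),
        ← mul_assoc]
      by_cases him : i < m
      · obtain ⟨d, rfl⟩ : ∃ d, m = i + d := ⟨m - i, by omega⟩
        have h2 := hup i h1 him
        rw [Nat.add_sub_cancel_left] at h2
        calc _ ≤ (e1 * σ) ^ i * (σ ^ (i + d))⁻¹ * σ ^ d := by gcongr
          _ = e1 ^ i := by rw [pow_add, mul_pow]; field_simp
          _ ≤ K := (pow_le_one₀ he10.le he11).trans hK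
      · calc _ ≤ 1 * K := mul_le_mul (hpw i (by omega)) (hφ.ibd hK0.le h1 hi t0 ht0')
              (abs_nonneg _) zero_le_one
          _ = K := one_mul K
    · intro s hs t ht
      rw [sm_apply, norm_mul, Real.norm_eq_abs, abs_of_pos (by positivity), ← mul_assoc]
      calc _ ≤ 1 * (K * |s - t|) := mul_le_mul (hpw _ (by omega)) (hφ.ilp le_rfl s hs t ht)
              (norm_nonneg _) zero_le_one
        _ = _ := one_mul _
  have hg0 : c1 ≤ |deriv^[i0] g 0| := by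
    rw [hg, (sc_iter hφ _ t0 _ hm1 (by omega : i0 ≤ k)).1 0 (by simp), mul_zero, add_zero,
      sm_apply, smul_eq_mul, abs_mul, abs_mul, abs_of_pos (by positivity),
      abs_of_pos (by positivity), ← mul_assoc]
    obtain ⟨d, rfl⟩ : ∃ d, m = i0 + d := ⟨m - i0, by omega⟩
    rw [Nat.add_sub_cancel_left] at hlo
    calc c1 ≤ e1 ^ i0 / Λ ^ d := by
          rw [hc1, div_pow]
          exact div_le_div₀ (by positivity) (pow_le_pow_of_le_one he10.le he11 (by omega))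
            (by positivity) (pow_le_pow_right₀ hΛ (by omega))
      _ = (e1 * σ) ^ i0 * (σ ^ (i0 + d))⁻¹ * (σ / Λ) ^ d := by
          rw [pow_add, mul_pow, div_pow]; field_simp
      _ ≤ _ := by gcongr
  obtain ⟨h, hh⟩ : ∃ h, h = sc (sm 1) 0 e2 g := ⟨_, rfl⟩
  have hhL : L (-1) 1 k ((k + 1) * K1) h :=
    hh ▸ sc_L' hgL hK10.le _ (fun x => by simp [sm_apply]) 0 e2 he20 he21 hm2
  have hh0 : ∀ t ∈ Ioo (-1 : ℝ) 1, e2 ^ j * (c1 / 2) ≤ |deriv^[i0] h t| := by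
    intro t ht
    rw [hh, (sc_iter hgL _ 0 _ hm2 (by omega : i0 ≤ k)).1 t ht, sm_apply, one_mul, smul_eq_mul,
      abs_mul, abs_of_pos (by positivity)]
    refine mul_le_mul (pow_le_pow_of_le_one he20.le he21 (by omega)) ?_ (by positivity)
      (by positivity)
    have h1 := hgL.ilp (by omega : i0 ≤ k) _ (hm2 t ht) 0 (by simp)
    have h2 : |0 + e2 * t - 0| ≤ e2 := by
      rw [zero_add, sub_zero, abs_mul, abs_of_pos he20]
      exact mul_le_of_le_one_right he20.le (abs_le.2 ⟨ht.1.le, ht.2.le⟩)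
    have h3 := mul_le_mul_of_nonneg_left h2 hK10.le
    have h4 := abs_sub_abs_le_abs_sub (deriv^[i0] g 0) (deriv^[i0] g (0 + e2 * t))
    rw [abs_sub_comm] at h4
    rw [Real.norm_eq_abs] at h1
    linarith
  have hρ : 0 < e1 * σ * e2 := by positivity
  have hρ1 : e1 * σ * e2 ≤ e1 * σ := mul_le_of_le_one_right (by positivity) he21
  refine ⟨3 / 16 * (e1 * σ * e2), by positivity, by linarith, ?_, ?_⟩
  · intro t ht
    rw [mem_ball, Real.dist_eq] at ht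
    have h1 := abs_lt.1 ht
    have ht' : t ∈ Ioo (-1 : ℝ) 1 := ⟨by linarith [ht0.1], by linarith [ht0.2]⟩
    refine ⟨ht', ?_⟩
    have h2 := hφ.ilp (by omega : m - 1 ≤ k) t ht' t0 ht0'
    have h3 := hup (m - 1) (by omega) (by omega)
    rw [show m - (m - 1) = 1 by omega, pow_one] at h3
    have h4 := abs_sub_abs_le_abs_sub (deriv^[m - 1] φ t) (deriv^[m - 1] φ t0)
    rw [Real.norm_eq_abs] at h2
    have h5 : K * |t - t0| ≤ K * (e1 * σ) := mul_le_mul_of_nonneg_left (by linarith) hK0.le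
    have h6 : K * (e1 * σ) = σ / 4 := by rw [← mul_assoc, mul_comm K, he1K]; ring
    linarith
  · intro δ δ' hδ hδ' hδδ
    have he0 : 0 < e1 * e2 := by positivity
    have he : e1 * e2 ≤ 1 := mul_le_one₀ he11 he20.le he21
    have h1 := hC i0 hi1 hi0 h hhL hh0 (δ' / (e1 * e2) ^ 2) (by positivity)
    refine (aff _ (bad j ((δ' / (e1 * e2) ^ 2) ^ (j - 1)) h ∩ Ioo (-3 / 4) (3 / 4)) t0
      (e1 * σ * e2) hρ ?_).trans ?_
    · intro t ⟨hb, ht⟩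
      rw [mem_ball, Real.dist_eq] at ht
      have h2 := abs_lt.1 ht
      obtain ⟨τ, hτ⟩ : ∃ τ, τ = (t - t0) / (e1 * σ * e2) := ⟨_, rfl⟩
      have hτ1 : τ ∈ Ioo (-3 / 4 : ℝ) (3 / 4) := by
        rw [hτ, mem_Ioo, lt_div_iff₀ hρ, div_lt_iff₀ hρ]
        constructor <;> linarith
      have hτ2 : τ ∈ Ioo (-1 : ℝ) 1 := ⟨by linarith [hτ1.1], by linarith [hτ1.2]⟩
      rw [← hτ]
      refine ⟨?_, hτ1⟩
      rw [hh]
      refine bad_sc (D := δ' ^ (j - 1) / e1 ^ j) hgL hj one_pos he20 hm2 (by positivity) ?_ hτ2 ?_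
      · rw [div_pow, one_mul, div_mul_eq_mul_div, div_le_div_iff₀ (by positivity) (by positivity),
          mul_assoc, ← mul_pow e2 e1, ← pow_mul, mul_comm e2]
        exact mul_le_mul_of_nonneg_left (pow_le_pow_of_le_one he0.le he (by omega)) (by positivity)
      · rw [hg]
        refine bad_sc (D := δ ^ (j - 1)) hφ hj (by positivity) (by positivity) hm1 (by positivity) ?_
          (hm2 τ hτ2) ?_
        · refine hδδ.trans (le_of_eq ?_)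
          obtain ⟨d, rfl⟩ : ∃ d, j = m + d := ⟨j - m, by omega⟩
          rw [Nat.add_sub_cancel_left, mul_pow, pow_add σ]
          field_simp
        · have e : t0 + e1 * σ * (0 + e2 * τ) = t := by rw [hτ]; field_simp; ring
          rwa [e]
    · refine (mul_le_mul_right h1 _).trans ?_
      rw [← ENNReal.ofReal_mul hρ.le]
      exact ENNReal.ofReal_le_ofReal (le_of_eq (by ring))

lemma levels {k m : ℕ} (hmk : m ≤ k + 1) {K Λ : ℝ} (hK : 1 ≤ K) (hΛ : 1 < Λ) {φ : ℝ → ℝ}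
    (hφ : L (-1) 1 k K φ) {t : ℝ} (ht : t ∈ Ioo (-1 : ℝ) 1)
    (h : ∃ i, 1 ≤ i ∧ i < m ∧ deriv^[i] φ t ≠ 0) :
    ∃ l : ℕ, (∀ i, 1 ≤ i → i < m → |deriv^[i] φ t| ≤ (K / Λ ^ l) ^ (m - i)) ∧
      ∃ i, 1 ≤ i ∧ i < m ∧ (K / Λ ^ l / Λ) ^ (m - i) < |deriv^[i] φ t| := by
  obtain ⟨l, h1, h2⟩ := lev (fun l => ∀ i, 1 ≤ i → i < m → |deriv^[i] φ t| ≤ (K / Λ ^ l) ^ (m - i))
    (by
      intro i h1 hi
      rw [pow_zero, div_one]
      exact (hφ.ibd (by linarith) h1 (by omega) t ht).trans (le_self_pow₀ hK (by omega)))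
    (by
      obtain ⟨i, h1, hi, hne⟩ := h
      have hx : 0 < min |deriv^[i] φ t| 1 := lt_min (abs_pos.2 hne) one_pos
      obtain ⟨l, hl⟩ := pow_unbounded_of_one_lt (K / min |deriv^[i] φ t| 1) hΛ
      rw [div_lt_iff₀ hx, mul_comm, ← div_lt_iff₀ (by positivity)] at hl
      refine ⟨l, fun hc => ?_⟩
      have h3 := hc i h1 hi
      have h4 : (K / Λ ^ l) ^ (m - i) ≤ K / Λ ^ l :=
        pow_le_of_le_one (by positivity) (hl.le.trans (min_le_right _ _)) (by omega)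
      linarith [min_le_left |deriv^[i] φ t| 1])
  push Not at h2
  refine ⟨l, h1, ?_⟩
  rwa [div_div, ← pow_succ]

lemma hh_all {j k : ℕ} (h2 : 2 ≤ j) (hj : j ≤ k + 1) : ∀ m, m ≤ j → HH j k m := by
  intro m
  induction m with
  | zero => intro _ K c _; exact ⟨0, le_rfl, fun m' _ h => by omega⟩
  | succ m ih =>
    intro hm K0 c hc
    obtain ⟨K, hK⟩ : ∃ K, K = max K0 1 := ⟨_, rfl⟩
    have hK1 : 1 ≤ K := hK ▸ le_max_right _ _
    obtain ⟨C0, hC0, H0⟩ := ih (by omega) K0 c hc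
    suffices ∃ C, 0 ≤ C ∧ (1 ≤ m → ∀ φ : ℝ → ℝ, L (-1) 1 k K φ →
        (∀ t ∈ Ioo (-1 : ℝ) 1, c ≤ |deriv^[m] φ t|) → ∀ δ, 0 < δ →
        volume (bad j (δ ^ (j - 1)) φ ∩ Ioo (-3 / 4) (3 / 4)) ≤ ENNReal.ofReal (C * δ)) by
      obtain ⟨C, hC, H⟩ := this
      refine ⟨C0 + C, by positivity, fun m' h1 hm' φ hφ hl δ hδ => ?_⟩
      rcases Nat.lt_succ_iff_lt_or_eq.1 hm' with h | rfl
      · exact (H0 m' h1 h φ hφ hl δ hδ).trans (ENNReal.ofReal_le_ofReal (by nlinarith))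
      · exact (H h1 φ (hφ.mono (hK ▸ le_max_left _ _)) hl δ hδ).trans
          (ENNReal.ofReal_le_ofReal (by nlinarith))
    have hsub : ∀ φ : ℝ → ℝ, 1 ≤ m → L (-1) 1 k K φ →
        (∀ t ∈ Ioo (-1 : ℝ) 1, c ≤ |deriv^[m] φ t|) → ∀ l,
        volume {t | t ∈ Ioo (-1 : ℝ) 1 ∧ |deriv^[m - 1] φ t| ≤ l} ≤ ENNReal.ofReal (2 * l / c) := by
      intro φ h1 hφ hl l
      refine sub _ c l hc (hφ.idiff (by omega)) ?_
      intro t ht
      have := hl t ht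
      rwa [show m = (m - 1) + 1 by omega, Function.iterate_succ_apply'] at this
    by_cases hm1 : m = 1
    · subst hm1
      refine ⟨2 * K ^ j / c + 2, by positivity, fun _ φ hφ hl δ hδ => ?_⟩
      have hp : 0 ≤ 2 * K ^ j / c * δ := by positivity
      by_cases hδ1 : δ ≤ 1
      · refine (measure_mono ?_).trans ((hsub φ le_rfl hφ hl (δ * K ^ j)).trans
          (ENNReal.ofReal_le_ofReal ?_))
        · intro t ⟨⟨i, h1, hi, hb⟩, ht⟩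
          have ht' : t ∈ Ioo (-1 : ℝ) 1 := ⟨by linarith [ht.1], by linarith [ht.2]⟩
          refine ⟨ht', ?_⟩
          have h3 := hφ.ibd (by linarith) h1 (by omega : i ≤ k) t ht'
          have h4 : (δ ^ (j - 1)) ^ i * ‖deriv^[i] φ t‖ ^ j ≤ (δ * K ^ j) ^ (j - i) := by
            rw [mul_pow, ← pow_mul]
            refine mul_le_mul (pow_le_pow_of_le_one hδ.le hδ1 ?_) ?_ (by positivity) (by positivity)
            · obtain ⟨d, rfl⟩ : ∃ d, i = d + 1 := ⟨i - 1, by omega⟩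
              rw [mul_add, mul_one]; omega
            · exact (pow_le_pow_left₀ (norm_nonneg _) h3 j).trans
                (le_self_pow₀ (one_le_pow₀ hK1) (by omega))
          exact (lt_of_pow_lt_pow_left₀ _ (by positivity) (hb.trans_le h4)).le
        · have e : 2 * (δ * K ^ j) / c = 2 * K ^ j / c * δ := by ring
          rw [e]; nlinarith
      · refine (measure_mono inter_subset_right).trans ?_
        rw [Real.volume_Ioo]
        exact ENNReal.ofReal_le_ofReal (by nlinarith)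
    by_cases hm0 : m = 0
    · exact ⟨0, le_rfl, fun h => by omega⟩
    obtain ⟨Λ, hΛ⟩ : ∃ Λ : ℝ, Λ = 2 ^ (j - 1) := ⟨_, rfl⟩
    have hΛ1 : 1 < Λ := hΛ ▸ one_lt_pow₀ (by norm_num) (by omega)
    obtain ⟨C, hC, H⟩ := loc (by omega : 2 ≤ m) (by omega) hj (ih (by omega)) K Λ hK1 hΛ1.le
    refine ⟨C * (4 * K / c) * (1 - 1 / 2)⁻¹, by positivity, fun h1 φ hφ hl δ hδ => ?_⟩
    obtain ⟨A, hA⟩ : ∃ A : ℕ → Set ℝ, A = fun l => {t | t ∈ Ioo (-3 / 4 : ℝ) (3 / 4) ∧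
      (∀ i, 1 ≤ i → i < m → |deriv^[i] φ t| ≤ (K / Λ ^ l) ^ (m - i)) ∧
      ∃ i, 1 ≤ i ∧ i < m ∧ (K / Λ ^ l / Λ) ^ (m - i) < |deriv^[i] φ t|} := ⟨_, rfl⟩
    have hcov : bad j (δ ^ (j - 1)) φ ∩ Ioo (-3 / 4) (3 / 4) ⊆
        {t | t ∈ Ioo (-1 : ℝ) 1 ∧ |deriv^[m - 1] φ t| ≤ 0} ∪
          ⋃ l, bad j (δ ^ (j - 1)) φ ∩ A l := by
      intro t ⟨hb, ht⟩
      have ht' : t ∈ Ioo (-1 : ℝ) 1 := ⟨by linarith [ht.1], by linarith [ht.2]⟩
      by_cases hz : deriv^[m - 1] φ t = 0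
      · exact Or.inl ⟨ht', by simp [hz]⟩
      · obtain ⟨l, hl⟩ := levels (m := m) (by omega) hK1 hΛ1 hφ ht'
          ⟨m - 1, by omega, by omega, hz⟩
        exact Or.inr (mem_iUnion.2 ⟨l, hb, by rw [hA]; exact ⟨ht, hl⟩⟩)
    refine (measure_mono hcov).trans ((measure_union_le _ _).trans ?_)
    have hz := hsub φ h1 hφ hl 0
    simp only [mul_zero, zero_div, ENNReal.ofReal_zero, nonpos_iff_eq_zero] at hz
    rw [hz, zero_add]
    refine (geo _ (C * (4 * K / c) * δ) (1 / 2) (by positivity) (by norm_num) (by norm_num)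
      fun l => ?_).trans (le_of_eq (by congr 1; ring))
    have hσ : 0 < K / Λ ^ l := by positivity
    have hΛl : 1 ≤ Λ ^ l := one_le_pow₀ hΛ1.le
    refine (vit _ (A l) {t | t ∈ Ioo (-1 : ℝ) 1 ∧ |deriv^[m - 1] φ t| ≤ 2 * (K / Λ ^ l)}
      (C * (δ * 2 ^ (l * (j - 2)))) 1 (by positivity) ?_).trans ?_
    · intro t ht
      rw [hA] at ht
      obtain ⟨r, hr, hr1, hb, hv⟩ := H φ hφ t ht.1 _ hσ (div_le_self (by linarith) hΛl) ht.2.1 ht.2.2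
      refine ⟨r, hr, hr1, hb, hv δ _ hδ (by positivity) ?_⟩
      rw [mul_pow, mul_assoc]
      refine le_mul_of_one_le_right (by positivity) ?_
      have e : ((2 : ℝ) ^ (l * (j - 2))) ^ (j - 1) = (Λ ^ l) ^ (j - 2) := by
        rw [hΛ, ← pow_mul, ← pow_mul, ← pow_mul]; congr 1; ring
      rw [e, div_pow, ← mul_div_assoc, le_div_iff₀ (by positivity), one_mul]
      exact (pow_le_pow_right₀ hΛl (by omega)).trans
        (le_mul_of_one_le_right (by positivity) (one_le_pow₀ hK1))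
    · refine (mul_le_mul_right (hsub φ h1 hφ hl _) _).trans ?_
      rw [← ENNReal.ofReal_mul (by positivity)]
      refine ENNReal.ofReal_le_ofReal (le_of_eq ?_)
      have e : Λ ^ l = 2 ^ (l * (j - 2)) * 2 ^ l := by
        rw [hΛ, ← pow_mul, ← pow_add]; congr 1
        obtain ⟨d, rfl⟩ : ∃ d, j = d + 2 := ⟨j - 2, by omega⟩
        simp only [Nat.add_sub_cancel, show d + 2 - 1 = d + 1 by omega]; ring
      rw [e, one_div, inv_pow]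
      field_simp
      ring

lemma gg {j k : ℕ} (h2 : 2 ≤ j) (hj : j ≤ k + 1) (K0 : ℝ) : ∃ C, 0 ≤ C ∧ ∀ φ : ℝ → ℝ,
    L (-1) 1 k K0 φ → ∀ δ, 0 < δ →
      volume (bad j (δ ^ (j - 1)) φ ∩ Ioo (-3 / 4) (3 / 4)) ≤ ENNReal.ofReal (C * δ) := by
  obtain ⟨K, hK⟩ : ∃ K, K = max K0 1 := ⟨_, rfl⟩
  have hK1 : 1 ≤ K := hK ▸ le_max_right _ _
  obtain ⟨C, hC, H⟩ := loc h2 le_rfl hj (hh_all h2 hj j le_rfl) K 2 hK1 (by norm_num)
  refine ⟨C * 2, by positivity, fun φ hφ δ hδ => ?_⟩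
  replace hφ := hφ.mono (hK ▸ le_max_left _ _ : K0 ≤ K)
  have hcov : bad j (δ ^ (j - 1)) φ ∩ Ioo (-3 / 4) (3 / 4) ⊆ bad j (δ ^ (j - 1)) φ ∩
      {t | t ∈ Ioo (-3 / 4 : ℝ) (3 / 4) ∧ ∃ i, 1 ≤ i ∧ i < j ∧ deriv^[i] φ t ≠ 0} := by
    intro t ⟨hb, ht⟩
    refine ⟨hb, ht, ?_⟩
    obtain ⟨i, h1, hi, hb⟩ := hb
    refine ⟨i, h1, hi, fun hz => ?_⟩
    rw [hz, norm_zero, zero_pow (by omega), mul_zero] at hb
    exact absurd hb (not_lt.2 (by positivity))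
  refine (measure_mono hcov).trans ((vit _ _ (Ioo (-1) 1) (C * δ) 1 (by positivity) ?_).trans ?_)
  · intro t ⟨ht, hz⟩
    have ht' : t ∈ Ioo (-1 : ℝ) 1 := ⟨by linarith [ht.1], by linarith [ht.2]⟩
    obtain ⟨l, h1, h3⟩ := levels hj hK1 (by norm_num : (1 : ℝ) < 2) hφ ht' hz
    obtain ⟨r, hr, hr1, hb, hv⟩ := H φ hφ t ht _ (by positivity)
      (div_le_self (by linarith) (one_le_pow₀ (by norm_num))) h1 h3
    exact ⟨r, hr, hr1, fun x hx => (hb x hx).1, hv δ δ hδ hδ (by simp)⟩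
  · rw [Real.volume_Ioo, ← ENNReal.ofReal_mul (by positivity)]
    exact ENNReal.ofReal_le_ofReal (le_of_eq (by ring))

end Pool.Agent.H.MP_6562b9_an
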