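import Mathlib

namespace Pool.Agent.H.MP_6562b9_an

open Set Metric Filter Topology Polynomial

variable {n : ℕ}

noncomputable def lin (c : Fin n → ℂ) (z : ℂ) : ℂ := ∑ i, c i * z ^ (i : ℕ)
noncomputable def ev (c : Fin n → ℂ) (z : ℂ) : ℂ := z ^ n + lin c z
noncomputable def ev1 (c : Fin n → ℂ) (z : ℂ) : ℂ :=
  n * z ^ (n - 1) + ∑ i, c i * ((i : ℕ) * z ^ ((i : ℕ) - 1))

lemma ev_d (c : Fin n → ℂ) (z : ℂ) : HasDerivAt (ev c) (ev1 c z) z :=
  (hasDerivAt_pow n z).fun_add (HasDerivAt.fun_sum fun i _ => (hasDerivAt_pow i z).const_mul (c i))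

lemma ev_deriv {a : ℝ → Fin n → ℂ} {a' : Fin n → ℂ} {w : ℝ → ℂ} {w' : ℂ} {t : ℝ}
    (ha : HasDerivAt a a' t) (hw : HasDerivAt w w' t) :
    HasDerivAt (fun τ => ev (a τ) (w τ)) (lin a' (w t) + ev1 (a t) (w t) * w') t := by
  have h1 := hasDerivAt_pi.1 ha
  have h2 := (hw.fun_pow n).fun_add (HasDerivAt.fun_sum (u := Finset.univ)
    fun (i : Fin n) _ => (h1 i).fun_mul (hw.fun_pow (i : ℕ)))
  refine h2.congr_deriv ?_
  simp only [lin, ev1, Finset.sum_add_distrib, add_mul, Finset.sum_mul]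
  have e : ∀ i : Fin n, a t i * (((i : ℕ) : ℂ) * w t ^ ((i : ℕ) - 1) * w') =
      a t i * (((i : ℕ) : ℂ) * w t ^ ((i : ℕ) - 1)) * w' := fun i => by ring
  simp only [e]
  ring

noncomputable def lp (c : Fin n → ℂ) : ℂ[X] := ∑ i, C (c i) * X ^ (i : ℕ)
noncomputable def tp (c : Fin n → ℂ) : ℂ[X] := X ^ n + lp c

lemma lp_deg (c : Fin n → ℂ) : (lp c).degree < n := degree_sum_fin_lt c

lemma lp_coeff (c : Fin n → ℂ) (i : Fin n) : (lp c).coeff i = c i := by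
  simp only [lp, finsetSum_coeff, coeff_C_mul, coeff_X_pow]
  rw [Finset.sum_eq_single i] <;> simp
  intro j hj h
  exact absurd (Fin.ext h).symm hj

lemma tp_monic (c : Fin n → ℂ) : (tp c).Monic := monic_X_pow_add (lp_deg c)

lemma tp_deg (c : Fin n → ℂ) : (tp c).degree = n := by
  rw [tp, degree_add_eq_left_of_degree_lt] <;> rw [degree_X_pow]
  exact lp_deg c

lemma tp_nat (c : Fin n → ℂ) : (tp c).natDegree = n := natDegree_eq_of_degree_eq_some (tp_deg c)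

lemma tp_coeff (c : Fin n → ℂ) (i : Fin n) : (tp c).coeff i = c i := by
  rw [tp, coeff_add, lp_coeff, coeff_X_pow, if_neg i.2.ne, zero_add]

lemma tp_eval (c : Fin n → ℂ) (z : ℂ) : (tp c).eval z = ev c z := by
  simp [tp, lp, ev, lin, eval_finsetSum]

lemma tp_of (M : ℂ[X]) (hM : M.Monic) (h : M.natDegree = n) :
    tp (fun i : Fin n => M.coeff i) = M := by
  subst h
  conv_rhs => rw [hM.as_sum, Finset.sum_range]
  rfl

section
variable {E : Type} [NormedAddCommGroup E] [NormedSpace ℂ E] {N : WithTop ℕ∞}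

def Sm (N : WithTop ℕ∞) (F : E → ℂ[X]) : Prop := ∀ k, ContDiff ℂ N fun x => (F x).coeff k

lemma Sm.const (p : ℂ[X]) : Sm N (fun _ : E => p) := fun _ => contDiff_const

lemma Sm.C {f : E → ℂ} (h : ContDiff ℂ N f) : Sm N (fun x => C (f x)) := by
  intro k
  simp only [coeff_C]
  split_ifs
  · exact h
  · exact contDiff_const

lemma Sm.add {F G : E → ℂ[X]} (h : Sm N F) (h' : Sm N G) : Sm N (fun x => F x + G x) := by
  intro k
  simp only [coeff_add]
  exact (h k).add (h' k)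

lemma Sm.mul {F G : E → ℂ[X]} (h : Sm N F) (h' : Sm N G) : Sm N (fun x => F x * G x) := by
  intro k
  simp only [coeff_mul]
  exact ContDiff.sum fun i _ => (h _).mul (h' _)

lemma Sm.pow {F : E → ℂ[X]} (h : Sm N F) (m : ℕ) : Sm N (fun x => F x ^ m) := by
  induction m with
  | zero => simpa using Sm.const 1
  | succ m ih => simpa [pow_succ] using ih.mul h

lemma Sm.sum {F : Fin n → E → ℂ[X]} (h : ∀ i, Sm N (F i)) : Sm N (fun x => ∑ i, F i x) := by
  intro k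
  simp only [finsetSum_coeff]
  exact ContDiff.sum fun i _ => h i k

lemma Sm.tp {c : E → Fin n → ℂ} (h : ContDiff ℂ N c) : Sm N (fun x => tp (c x)) :=
  (Sm.const _).add (Sm.sum fun i => (Sm.C (contDiff_pi.1 h i)).mul (Sm.const _))

end

lemma tp_line (c u : Fin n → ℂ) (t : ℂ) : tp (c + t • u) = tp c + C t * lp u := by
  simp only [tp, lp, Pi.add_apply, Pi.smul_apply, smul_eq_mul, map_add, map_mul, add_mul,
    Finset.sum_add_distrib, Finset.mul_sum, mul_assoc, add_assoc]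

lemma split0 {m l : ℕ} (q : Fin m → ℂ) (r : Fin l → ℂ) (hc : IsCoprime (tp q) (tp r)) (N : ℕ) :
    ∃ (U : Set (Fin (m + l) → ℂ)) (ψ : (Fin (m + l) → ℂ) → Fin m → ℂ)
      (χ : (Fin (m + l) → ℂ) → Fin l → ℂ), IsOpen U ∧
      (fun i : Fin (m + l) => (tp q * tp r).coeff i) ∈ U ∧
      ContDiffOn ℝ ((N + 1 : ℕ) : WithTop ℕ∞) ψ U ∧ ContDiffOn ℝ ((N + 1 : ℕ) : WithTop ℕ∞) χ U ∧
      ∀ c ∈ U, ∀ z, ev c z = ev (ψ c) z * ev (χ c) z := by
  obtain ⟨Φ, hΦ⟩ : ∃ Φ : (Fin m → ℂ) × (Fin l → ℂ) → Fin (m + l) → ℂ,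
    Φ = fun (p : (Fin m → ℂ) × (Fin l → ℂ)) (i : Fin (m + l)) => (tp p.1 * tp p.2).coeff i :=
    ⟨_, rfl⟩
  have hs : ContDiff ℂ ((N + 1 : ℕ) : WithTop ℕ∞) Φ := by
    rw [hΦ]
    exact contDiff_pi.2 fun i => ((Sm.tp contDiff_fst).mul (Sm.tp contDiff_snd)) i
  have hN : ((N + 1 : ℕ) : WithTop ℕ∞) ≠ 0 := by simp
  have hd := (hs.differentiable hN (q, r)).hasFDerivAt
  obtain ⟨D, hD⟩ : ∃ D, D = fderiv ℂ Φ (q, r) := ⟨_, rfl⟩
  rw [← hD] at hd
  have hDv : ∀ v, ∀ i, D v i = (lp v.1 * tp r + tp q * lp v.2).coeff i := by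
    intro v i
    have h1 : HasDerivAt (fun t : ℂ => (q, r) + t • v) v 0 := by
      simpa using ((hasDerivAt_id (0 : ℂ)).smul_const v).const_add (q, r)
    have h2 : HasFDerivAt Φ D ((q, r) + (0 : ℂ) • v) := by simpa using hd
    have h3 := hasDerivAt_pi.1 (h2.comp_hasDerivAt (0 : ℂ) h1) i
    have h4 : ∀ t : ℂ, (Φ ∘ fun t : ℂ => (q, r) + t • v) t i = (tp q * tp r).coeff i +
        (lp v.1 * tp r + tp q * lp v.2).coeff i * t + (lp v.1 * lp v.2).coeff i * t ^ 2 := by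
      intro t
      simp only [hΦ, Function.comp_apply, Prod.fst_add, Prod.snd_add, Prod.smul_fst, Prod.smul_snd,
        tp_line]
      have e : (tp q + C t * lp v.1) * (tp r + C t * lp v.2) = tp q * tp r +
          (lp v.1 * tp r + tp q * lp v.2) * C t + (lp v.1 * lp v.2) * C (t ^ 2) := by
        rw [map_pow]; ring
      rw [e, coeff_add, coeff_add, coeff_mul_C, coeff_mul_C]
    simp only [h4] at h3
    have h5 := (((hasDerivAt_id (0 : ℂ)).const_mul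
      ((lp v.1 * tp r + tp q * lp v.2).coeff i)).const_add ((tp q * tp r).coeff i)).fun_add
      ((hasDerivAt_pow 2 (0 : ℂ)).const_mul ((lp v.1 * lp v.2).coeff i))
    have := h3.unique h5
    simpa using this
  have hinj : Function.Injective (D : ((Fin m → ℂ) × (Fin l → ℂ)) →ₗ[ℂ] Fin (m + l) → ℂ) := by
    rw [injective_iff_map_eq_zero]
    intro v hv
    have hG : lp v.1 * tp r + tp q * lp v.2 = 0 := by
      ext k
      by_cases hk : k < m + l
      · have := hDv v ⟨k, hk⟩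
        rw [show D v = 0 from hv] at this
        exact this.symm
      · refine coeff_eq_zero_of_degree_lt (lt_of_lt_of_le ?_ (b := ((m + l : ℕ) : WithBot ℕ))
          (by exact_mod_cast not_lt.1 hk))
        refine (degree_add_le _ _).trans_lt (max_lt ?_ ?_)
        · rw [degree_mul, tp_deg]; push_cast
          exact WithBot.add_lt_add_right (by simp) (lp_deg _)
        · rw [degree_mul, tp_deg]; push_cast
          exact WithBot.add_lt_add_left (by simp) (lp_deg _)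
    have h1 : tp q ∣ lp v.1 * tp r := ⟨-lp v.2, by linear_combination hG⟩
    have h2 : lp v.1 = 0 := eq_zero_of_dvd_of_degree_lt (hc.dvd_of_dvd_mul_right h1)
      (by rw [tp_deg]; exact lp_deg _)
    rw [h2, zero_mul, zero_add] at hG
    have h3 : lp v.2 = 0 := (mul_eq_zero.1 hG).resolve_left (tp_monic q).ne_zero
    ext i
    · rw [← lp_coeff v.1, h2]; simp
    · rw [← lp_coeff v.2, h3]; simp
  obtain ⟨e, he⟩ : ∃ e : ((Fin m → ℂ) × (Fin l → ℂ)) ≃L[ℂ] (Fin (m + l) → ℂ),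
      (e : ((Fin m → ℂ) × (Fin l → ℂ)) →L[ℂ] (Fin (m + l) → ℂ)) = D :=
    ⟨(LinearMap.linearEquivOfInjective _ hinj (by simp)).toContinuousLinearEquiv, by
      ext1 <;> rfl⟩
  rw [← he] at hd
  have h1 := hs.contDiffAt.to_localInverse hd hN
  have h2 := (hs.contDiffAt.hasStrictFDerivAt' hd hN).eventually_right_inverse
  obtain ⟨u, hu, h3⟩ := (h1.restrict_scalars ℝ).contDiffOn le_rfl (by simp)
  obtain ⟨U, hU, hUo, hU0⟩ := _root_.mem_nhds_iff.1 (inter_mem hu h2)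
  have h4 := h3.mono (hU.trans inter_subset_left)
  refine ⟨U, _, _, hUo, by simpa [hΦ] using hU0, h4.fst, h4.snd, fun c hc z => ?_⟩
  have h5 : Φ (hs.contDiffAt.localInverse hd hN c) = c := (hU hc).2
  obtain ⟨p, hp⟩ : ∃ p, p = hs.contDiffAt.localInverse hd hN c := ⟨_, rfl⟩
  rw [← hp] at h5 ⊢
  have h6 := tp_of (n := m + l) (tp p.1 * tp p.2) ((tp_monic _).mul (tp_monic _))
    (by rw [(tp_monic _).natDegree_mul (tp_monic _), tp_nat, tp_nat])
  rw [← tp_eval, ← tp_eval, ← tp_eval, ← eval_mul, ← h6, ← h5, hΦ]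

lemma split (c0 : Fin (n + 1) → ℂ) (h0 : c0 ≠ 0) (hl : c0 (Fin.last n) = 0) (N : ℕ) :
    ∃ (m l : ℕ) (U : Set (Fin (n + 1) → ℂ)) (ψ : (Fin (n + 1) → ℂ) → Fin m → ℂ)
      (χ : (Fin (n + 1) → ℂ) → Fin l → ℂ), m ≤ n ∧ l ≤ n ∧ IsOpen U ∧ c0 ∈ U ∧
      ContDiffOn ℝ ((N + 1 : ℕ) : WithTop ℕ∞) ψ U ∧ ContDiffOn ℝ ((N + 1 : ℕ) : WithTop ℕ∞) χ U ∧
      ∀ c ∈ U, ∀ z, ev c z = ev (ψ c) z * ev (χ c) z := by
  obtain ⟨z, hz⟩ := IsAlgClosed.exists_root (tp c0) (by rw [tp_deg]; exact_mod_cast n.succ_ne_zero)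
  have hm := (rootMultiplicity_pos (tp_monic c0).ne_zero).2 hz
  obtain ⟨R, hR, hnd⟩ := exists_eq_pow_rootMultiplicity_mul_and_not_dvd (tp c0)
    (tp_monic c0).ne_zero z
  obtain ⟨m, hmd⟩ : ∃ m, m = rootMultiplicity z (tp c0) := ⟨_, rfl⟩
  rw [← hmd] at hR hm
  have hQ : ((X - C z) ^ m).Monic := (monic_X_sub_C z).pow m
  have hQd : ((X - C z) ^ m).natDegree = m := by simp [natDegree_pow]
  have hRm : R.Monic := hQ.of_mul_monic_left (hR ▸ tp_monic c0)
  obtain ⟨l, hld⟩ : ∃ l, l = R.natDegree := ⟨_, rfl⟩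
  have hml : n + 1 = m + l := by
    rw [← tp_nat c0, hR, hQ.natDegree_mul hRm, hQd, hld]
  have hl0 : l ≠ 0 := by
    rintro rfl
    have h1 : R = 1 := hRm.natDegree_eq_zero.1 hld.symm
    have h2 : m = n + 1 := by omega
    rw [h1, mul_one, h2, sub_eq_add_neg, ← map_neg] at hR
    have h3 := tp_coeff c0 (Fin.last n)
    rw [hR, coeff_X_add_C_pow, hl] at h3
    have h4 : z = 0 := by
      simpa [Nat.cast_add_one_ne_zero] using h3
    apply h0
    ext i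
    rw [← tp_coeff c0, hR, h4]
    simp [coeff_X_pow, i.2.ne]
  have hq := tp_of (n := m) _ hQ hQd
  have hr := tp_of (n := l) _ hRm hld.symm
  have hc : IsCoprime ((X - C z) ^ m) R :=
    ((irreducible_X_sub_C z).coprime_iff_not_dvd.2 hnd).pow_left
  rw [← hq, ← hr] at hc
  have h := split0 _ _ hc N
  rw [hq, hr, ← hR] at h
  have hm' : m ≤ n := by omega
  have hl' : l ≤ n := by omega
  clear hl
  generalize n + 1 = n1 at *
  subst hml
  obtain ⟨U, ψ, χ, h1, h2, h3⟩ := h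
  refine ⟨m, l, U, ψ, χ, hm', hl', h1, ?_, h3⟩
  simpa only [tp_coeff] using h2

noncomputable def nu (c : Fin (n + 1) → ℂ) : ℂ := -c (Fin.last n) / (n + 1)

noncomputable def tq (c : Fin (n + 1) → ℂ) : ℂ[X] :=
  (X + C (nu c)) ^ (n + 1) + ∑ i, C (c i) * (X + C (nu c)) ^ (i : ℕ)

noncomputable def tsh (c : Fin (n + 1) → ℂ) : Fin (n + 1) → ℂ := fun i => (tq c).coeff i

lemma nu_sm {N : WithTop ℕ∞} : ContDiff ℂ N (nu (n := n)) := by
  unfold nu
  exact (contDiff_apply ℂ ℂ (Fin.last n)).neg.div_const _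

lemma tsh_sm {N : WithTop ℕ∞} : ContDiff ℝ N (tsh (n := n)) := by
  refine ContDiff.restrict_scalars ℝ (𝕜' := ℂ) (contDiff_pi.2 fun i => ?_)
  have h : Sm N (fun c : Fin (n + 1) → ℂ => X + C (nu c)) := (Sm.const _).add (Sm.C nu_sm)
  exact ((h.pow _).add (Sm.sum fun i => (Sm.C (contDiff_apply ℂ ℂ i)).mul (h.pow _))) i

lemma tsh_ev (c : Fin (n + 1) → ℂ) (w : ℂ) : ev (tsh c) w = ev c (w + nu c) := by
  have e : tq c = (tp c).comp (X + C (nu c)) := by
    simp [tq, tp, lp, Polynomial.sum_comp]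
  have h := tp_of (n := n + 1) (tq c) (e ▸ (tp_monic c).comp_X_add_C _)
    (by rw [e, natDegree_comp, tp_nat, natDegree_X_add_C, mul_one])
  rw [← tp_eval, ← tp_eval]
  unfold tsh
  rw [h, e, eval_comp]
  simp

lemma tsh_last (c : Fin (n + 1) → ℂ) : tsh c (Fin.last n) = 0 := by
  simp only [tsh, tq, coeff_add, finsetSum_coeff, coeff_C_mul, coeff_X_add_C_pow,
    Fin.sum_univ_castSucc, Fin.val_last, Fin.val_castSucc]
  rw [Finset.sum_eq_zero fun i _ => by rw [Nat.choose_eq_zero_of_lt i.2]; simp]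
  have : (n : ℂ) + 1 ≠ 0 := Nat.cast_add_one_ne_zero n
  simp [nu]
  field_simp
  ring

end Pool.Agent.H.MP_6562b9_an
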