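import Pool.Agent.H.MP_6562b9_an.B
import Pool.Agent.H.MP_6562b9_an.C

namespace Pool.Agent.H.MP_6562b9_an

open Set Metric MeasureTheory Filter Topology

variable {n : ℕ}

def S (s : ℝ) (a : ℝ → Fin n → ℂ) : Set ℝ :=
  {t | ∃ z, ev (a t) z = 0 ∧ ev1 (a t) z ≠ 0 ∧ s * ‖ev1 (a t) z‖ < ‖lin (deriv a t) z‖}

noncomputable def T (n : ℕ) (ρ : ℝ) : (Fin n → ℂ) →L[ℝ] (Fin n → ℂ) :=
  ContinuousLinearMap.pi fun i => (ρ ^ (n - i))⁻¹ • ContinuousLinearMap.proj i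

lemma T_apply (ρ : ℝ) (c : Fin n → ℂ) (i : Fin n) : T n ρ c i = (ρ ^ (n - i))⁻¹ • c i := by
  simp [T]

lemma T_norm {ρ : ℝ} (hρ : 0 < ρ) (c : Fin n → ℂ) (i : Fin n) :
    ‖T n ρ c i‖ = (ρ ^ (n - i))⁻¹ * ‖c i‖ := by
  rw [T_apply, norm_smul, Real.norm_eq_abs, abs_of_pos (by positivity)]

lemma T_le {ρ r η : ℝ} (hρ : 0 < ρ) (hr : 0 < r) (hη : 0 ≤ η) (c : Fin n → ℂ)
    (h : ∀ i : Fin n, r * (ρ ^ (n - i))⁻¹ * ‖c i‖ ≤ η) : r * ‖T n ρ c‖ ≤ η := by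
  rw [mul_comm, ← le_div_iff₀ hr, pi_norm_le_iff_of_nonneg (by positivity)]
  intro i
  rw [T_norm hρ, le_div_iff₀ hr]
  linarith [h i]

lemma lin_T {ρ : ℝ} (hρ : 0 < ρ) (c : Fin n → ℂ) (w : ℂ) :
    lin (T n ρ c) w * (ρ : ℂ) ^ n = lin c (ρ * w) := by
  simp only [lin, Finset.sum_mul]
  refine Finset.sum_congr rfl fun i _ => ?_
  have h : (ρ : ℂ) ≠ 0 := by exact_mod_cast hρ.ne'
  have e : (ρ : ℂ) ^ n = ρ ^ (n - i) * ρ ^ (i : ℕ) := by rw [← pow_add, Nat.sub_add_cancel i.2.le]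
  rw [T_apply, e, Complex.real_smul, mul_pow]
  push_cast
  field_simp

lemma ev_T {ρ : ℝ} (hρ : 0 < ρ) (c : Fin n → ℂ) (w : ℂ) :
    ev (T n ρ c) w * (ρ : ℂ) ^ n = ev c (ρ * w) := by
  rw [ev, ev, add_mul, lin_T hρ, mul_pow, mul_comm]

lemma ev1_T {ρ : ℝ} (hρ : 0 < ρ) (c : Fin n → ℂ) (w : ℂ) :
    ev1 (T n ρ c) w * (ρ : ℂ) ^ n = ev1 c (ρ * w) * ρ := by
  have h1 := (ev_d (T n ρ c) w).mul_const ((ρ : ℂ) ^ n)
  simp only [ev_T hρ] at h1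
  have h2 := (ev_d c (ρ * w)).comp w ((hasDerivAt_id w).const_mul (ρ : ℂ))
  simpa using h1.unique h2

lemma S_sc {a b K : ℝ} {k : ℕ} {f : ℝ → Fin n → ℂ} (h : L a b (k + 1) K f) {ρ r t0 s a' b' : ℝ}
    (hρ : 0 < ρ) (hr : 0 < r) (hm : ∀ τ ∈ Ioo a' b', t0 + r * τ ∈ Ioo a b) {τ : ℝ}
    (hτ : τ ∈ Ioo a' b') (hs : t0 + r * τ ∈ S s f) : τ ∈ S (s * r / ρ) (sc (T n ρ) t0 r f) := by
  obtain ⟨z, h0, h1, h2⟩ := hs
  have hρ' : (ρ : ℂ) ≠ 0 := by exact_mod_cast hρ.ne'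
  have e : (ρ : ℂ) * (z / ρ) = z := by field_simp
  have e0 := ev_T hρ (f (t0 + r * τ)) (z / ρ)
  have e1 := ev1_T hρ (f (t0 + r * τ)) (z / ρ)
  have e2 := lin_T hρ (deriv f (t0 + r * τ)) (z / ρ)
  rw [e] at e0 e1 e2
  have hd : deriv (sc (T n ρ) t0 r f) τ = r ^ 1 • T n ρ (deriv f (t0 + r * τ)) :=
    (sc_iter h (T n ρ) t0 r hm (i := 1) (by omega)).1 τ hτ
  have hp : (ρ : ℂ) ^ n ≠ 0 := pow_ne_zero _ hρ'
  refine ⟨z / ρ, ?_, ?_, ?_⟩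
  · rw [h0] at e0
    exact (mul_eq_zero.1 e0).resolve_right hp
  · intro hz
    simp only [sc] at hz
    rw [hz, zero_mul] at e1
    exact mul_ne_zero h1 hρ' e1.symm
  · have e3 : lin (r ^ 1 • T n ρ (deriv f (t0 + r * τ))) (z / ρ) =
        r * lin (T n ρ (deriv f (t0 + r * τ))) (z / ρ) := by
      simp [lin, Finset.mul_sum, mul_assoc]
    rw [hd, e3]
    have n1 := congrArg norm e1
    have n2 := congrArg norm e2
    simp only [norm_mul, norm_pow, Complex.norm_real, Real.norm_eq_abs, abs_of_pos hρ,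
      abs_of_pos hr, sc] at n1 n2 ⊢
    have hp' : 0 < ρ ^ n := by positivity
    refine lt_of_mul_lt_mul_right ?_ hp'.le
    rw [mul_assoc, mul_assoc r, n1, n2]
    have e4 : s * r / ρ * (‖ev1 (f (t0 + r * τ)) z‖ * ρ) = r * (s * ‖ev1 (f (t0 + r * τ)) z‖) := by
      field_simp
    rw [e4]
    exact mul_lt_mul_of_pos_left h2 hr

lemma S_fac {m l : ℕ} {a : ℝ → Fin n → ℂ} {q : ℝ → Fin m → ℂ} {r : ℝ → Fin l → ℂ} {t s : ℝ}
    (ha : DifferentiableAt ℝ a t) (hq : DifferentiableAt ℝ q t) (hr : DifferentiableAt ℝ r t)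
    (h : ∀ᶠ τ in 𝓝 t, ∀ z, ev (a τ) z = ev (q τ) z * ev (r τ) z) (hs : t ∈ S s a) :
    t ∈ S s q ∨ t ∈ S s r := by
  obtain ⟨z, h0, h1, h2⟩ := hs
  have e0 := h.self_of_nhds
  have e1 : ev1 (a t) z = ev1 (q t) z * ev (r t) z + ev (q t) z * ev1 (r t) z := by
    have := (ev_d (q t) z).fun_mul (ev_d (r t) z)
    simp only [← e0] at this
    exact (ev_d (a t) z).unique this
  have e2 : lin (deriv a t) z = lin (deriv q t) z * ev (r t) z + ev (q t) z * lin (deriv r t) z := by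
    have h3 := (ev_deriv hq.hasDerivAt (hasDerivAt_const t z)).fun_mul
      (ev_deriv hr.hasDerivAt (hasDerivAt_const t z))
    have h4 := (ev_deriv ha.hasDerivAt (hasDerivAt_const t z)).unique
      (h3.congr_of_eventuallyEq (h.mono fun τ hτ => hτ z))
    simpa using h4
  rw [e0] at h0
  rcases mul_eq_zero.1 h0 with h0 | h0
  · rw [h0, zero_mul, add_zero] at e1 e2
    rw [e1] at h1
    rw [e1, e2, norm_mul, norm_mul, ← mul_assoc] at h2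
    exact Or.inl ⟨z, h0, left_ne_zero_of_mul h1, lt_of_mul_lt_mul_right h2 (norm_nonneg _)⟩
  · rw [h0, mul_zero, zero_add] at e1 e2
    rw [e1] at h1
    rw [e1, e2, norm_mul, norm_mul, mul_left_comm] at h2
    exact Or.inr ⟨z, h0, right_ne_zero_of_mul h1, lt_of_mul_lt_mul_left h2 (norm_nonneg _)⟩

lemma S_tsh {a : ℝ → Fin (n + 1) → ℂ} {t s K : ℝ} (ha : DifferentiableAt ℝ a t)
    (hK : ‖deriv a t‖ ≤ K) (hs : 2 * K ≤ s) (h : t ∈ S s a) :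
    t ∈ S (s / 2) (fun τ => tsh (a τ)) := by
  obtain ⟨z, h0, h1, h2⟩ := h
  have hb : DifferentiableAt ℝ (fun τ => tsh (a τ)) t :=
    ((tsh_sm (N := 1)).differentiable (by simp) _).comp t ha
  have e1 : ev1 (tsh (a t)) (z - nu (a t)) = ev1 (a t) z := by
    have h3 := (ev_d (a t) (z - nu (a t) + nu (a t))).comp (z - nu (a t))
      ((hasDerivAt_id (z - nu (a t))).add_const (nu (a t)))
    have h4 := ev_d (tsh (a t)) (z - nu (a t))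
    have e : ev (tsh (a t)) = fun w => ev (a t) (w + nu (a t)) := funext fun w => tsh_ev _ w
    rw [e] at h4
    simpa using h4.unique h3
  have hν : HasDerivAt (fun τ => z - nu (a τ)) (deriv a t (Fin.last n) / (n + 1)) t := by
    have := ((hasDerivAt_pi.1 ha.hasDerivAt (Fin.last n)).neg.div_const ((n : ℂ) + 1)).const_sub z
    exact this.congr_deriv (by ring)
  have e2 := ev_deriv hb.hasDerivAt hν
  simp only [tsh_ev, sub_add_cancel] at e2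
  have e3 := (ev_deriv ha.hasDerivAt (hasDerivAt_const t z)).unique e2
  rw [mul_zero, add_zero, e1] at e3
  refine ⟨z - nu (a t), by rw [tsh_ev, sub_add_cancel, h0], by rwa [e1], ?_⟩
  rw [e1]
  have h5 : ‖deriv a t (Fin.last n) / (n + 1)‖ ≤ K := by
    rw [norm_div]
    refine (div_le_self (norm_nonneg _) ?_).trans ((norm_le_pi_norm _ _).trans hK)
    rw [← Nat.cast_succ, Complex.norm_natCast]
    exact_mod_cast n.succ_pos
  have h6 := norm_add_le (lin (deriv (fun τ => tsh (a τ)) t) (z - nu (a t)))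
    (ev1 (a t) z * (deriv a t (Fin.last n) / (n + 1)))
  rw [← e3, norm_mul] at h6
  have h7 := mul_le_mul_of_nonneg_left h5 (norm_nonneg (ev1 (a t) z))
  nlinarith [norm_nonneg (ev1 (a t) z)]

def Cl (k n : ℕ) (e : ℝ) : Prop :=
  ∀ K : ℝ, ∃ C, 0 ≤ C ∧ ∀ a : ℝ → Fin n → ℂ, B (-1) 1 (k + 1) K a → ∀ s, 0 < s →
    volume (S s a ∩ Ioo (-1 / 2) (1 / 2)) ≤ ENNReal.ofReal (C * s ^ (-e))

lemma fac {k : ℕ} {q : ℝ} (ih : ∀ m ≤ n, Cl k m q) (K : ℝ) (hK : 0 ≤ K) (c0 : Fin (n + 1) → ℂ)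
    (h0 : c0 ≠ 0) (hl : c0 (Fin.last n) = 0) :
    ∃ η, 0 < η ∧ ∃ C, 0 ≤ C ∧ ∀ h : ℝ → Fin (n + 1) → ℂ, B (-1) 1 (k + 1) K h →
      (∀ τ ∈ Ioo (-1 : ℝ) 1, ‖h τ - c0‖ ≤ η) → ∀ s, 0 < s →
      volume (S s h ∩ Ioo (-1 / 2) (1 / 2)) ≤ ENNReal.ofReal (C * s ^ (-q)) := by
  obtain ⟨m, l, U, ψ, χ, hm, hl, hU, hc, hψ, hχ, H⟩ := split c0 h0 hl (k + 1)
  obtain ⟨η, hη, hb⟩ := nhds_basis_closedBall.mem_iff.1 (hU.mem_nhds hc)
  obtain ⟨K1, -, H1⟩ := comp U _ hU (isCompact_closedBall c0 η) (convex_closedBall c0 η) hb K hK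
    (k + 1) _ ψ hψ
  obtain ⟨K2, -, H2⟩ := comp U _ hU (isCompact_closedBall c0 η) (convex_closedBall c0 η) hb K hK
    (k + 1) _ χ hχ
  obtain ⟨C1, hC1, G1⟩ := ih m hm K1
  obtain ⟨C2, hC2, G2⟩ := ih l hl K2
  refine ⟨η, hη, C1 + C2, by positivity, fun h hh hη' s hs => ?_⟩
  have hV : ∀ τ ∈ Ioo (-1 : ℝ) 1, h τ ∈ closedBall c0 η := fun τ hτ =>
    mem_closedBall_iff_norm.2 (hη' τ hτ)
  have b1 := H1 _ _ h hh hV
  have b2 := H2 _ _ h hh hV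
  have hcov : S s h ∩ Ioo (-1 / 2) (1 / 2) ⊆ (S s (fun t => ψ (h t)) ∩ Ioo (-1 / 2) (1 / 2)) ∪
      (S s (fun t => χ (h t)) ∩ Ioo (-1 / 2) (1 / 2)) := by
    intro t ⟨h1, ht⟩
    have ht' : t ∈ Ioo (-1 : ℝ) 1 := ⟨by linarith [ht.1], by linarith [ht.2]⟩
    refine (S_fac (hh.1.2.1 t ht') (b1.1.2.1 t ht') (b2.1.2.1 t ht') ?_ h1).imp
      (fun h => ⟨h, ht⟩) (fun h => ⟨h, ht⟩)
    filter_upwards [isOpen_Ioo.mem_nhds ht'] with τ hτ using H _ (hb (hV τ hτ))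
  refine (measure_mono hcov).trans ((measure_union_le _ _).trans
    ((add_le_add (G1 _ b1 s hs) (G2 _ b2 s hs)).trans ?_))
  rw [← ENNReal.ofReal_add (by positivity) (by positivity), add_mul]

lemma unif {k : ℕ} {q : ℝ} (ih : ∀ m ≤ n, Cl k m q) (K : ℝ) (hK : 0 ≤ K) :
    ∃ η, 0 < η ∧ ∃ C, 0 ≤ C ∧ ∀ c0 ∈ sphere (0 : Fin (n + 1) → ℂ) 1 ∩ {c | c (Fin.last n) = 0},
      ∀ h : ℝ → Fin (n + 1) → ℂ, B (-1) 1 (k + 1) K h →
      (∀ τ ∈ Ioo (-1 : ℝ) 1, ‖h τ - c0‖ ≤ η) → ∀ s, 0 < s →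
      volume (S s h ∩ Ioo (-1 / 2) (1 / 2)) ≤ ENNReal.ofReal (C * s ^ (-q)) := by
  have hc : IsCompact (sphere (0 : Fin (n + 1) → ℂ) 1 ∩ {c | c (Fin.last n) = 0}) :=
    (isCompact_sphere _ _).inter_right (isClosed_eq (continuous_apply _) continuous_const)
  refine hc.induction_on (p := fun V => ∃ η, 0 < η ∧ ∃ C, 0 ≤ C ∧ ∀ c0 ∈ V,
      ∀ h : ℝ → Fin (n + 1) → ℂ, B (-1) 1 (k + 1) K h →
      (∀ τ ∈ Ioo (-1 : ℝ) 1, ‖h τ - c0‖ ≤ η) → ∀ s, 0 < s →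
      volume (S s h ∩ Ioo (-1 / 2) (1 / 2)) ≤ ENNReal.ofReal (C * s ^ (-q))) ?_ ?_ ?_ ?_
  · exact ⟨1, one_pos, 0, le_rfl, fun _ h => h.elim⟩
  · rintro V V' hV ⟨η, hη, C, hC, H⟩
    exact ⟨η, hη, C, hC, fun c hc => H c (hV hc)⟩
  · rintro V V' ⟨η, hη, C, hC, H⟩ ⟨η', hη', C', hC', H'⟩
    refine ⟨min η η', lt_min hη hη', C + C', by positivity, ?_⟩
    rintro c (hc | hc) h hh hb s hs
    · refine (H c hc h hh (fun τ hτ => (hb τ hτ).trans (min_le_left _ _)) s hs).trans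
        (ENNReal.ofReal_le_ofReal ?_)
      gcongr; linarith
    · refine (H' c hc h hh (fun τ hτ => (hb τ hτ).trans (min_le_right _ _)) s hs).trans
        (ENNReal.ofReal_le_ofReal ?_)
      gcongr; linarith
  · intro c0 ⟨h1, h2⟩
    obtain ⟨η, hη, C, hC, H⟩ := fac ih K hK c0 (by rintro rfl; simp at h1) h2
    refine ⟨closedBall c0 (η / 2), mem_nhdsWithin_of_mem_nhds (closedBall_mem_nhds _ (by positivity)),
      η / 2, by positivity, C, hC, fun c hc h hh hb => H h hh fun τ hτ => ?_⟩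
    have h3 := mem_closedBall_iff_norm.1 hc
    have h4 := norm_add_le (h τ - c) (c - c0)
    rw [sub_add_sub_cancel] at h4
    linarith [hb τ hτ]

lemma rho (c : Fin (n + 1) → ℂ) (hc : c ≠ 0) :
    ∃ ρ : ℝ, 0 < ρ ∧ (∀ i : Fin (n + 1), ‖c i‖ ≤ ρ ^ (n + 1 - i)) ∧
      ∃ i : Fin (n + 1), ‖c i‖ = ρ ^ (n + 1 - i) := by
  obtain ⟨f, hf⟩ : ∃ f : Fin (n + 1) → ℝ,
    f = fun i => ‖c i‖ ^ (((n + 1 - i : ℕ) : ℝ)⁻¹) := ⟨_, rfl⟩
  have h1 : ∀ i, ‖c i‖ = f i ^ (n + 1 - i) := fun i => by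
    rw [hf, Real.rpow_inv_natCast_pow (norm_nonneg _) (by have := i.2; omega)]
  have h0 : ∀ i, 0 ≤ f i := fun i => by rw [hf]; positivity
  obtain ⟨i0, -, hi⟩ := Finset.exists_max_image Finset.univ f Finset.univ_nonempty
  have h2 : ∀ i : Fin (n + 1), ‖c i‖ ≤ f i0 ^ (n + 1 - i) := fun i =>
    h1 i ▸ pow_le_pow_left₀ (h0 i) (hi i (Finset.mem_univ _)) _
  refine ⟨f i0, (h0 i0).lt_of_ne fun h => hc ?_, h2, i0, h1 i0⟩
  ext i
  have := h2 i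
  rw [← h, zero_pow (by have := i.2; omega)] at this
  simpa using this

def W (M g : ℝ) (a : ℝ → Fin n → ℂ) : Set ℝ :=
  {t | t ∈ Ioo (-3 / 4 : ℝ) (3 / 4) ∧ (g < 2 ∨ ∃ (i : Fin n) (p : ℕ), 1 ≤ p ∧ p < n - i ∧
    (g ^ p) ^ (n - i) * ‖a t i‖ ^ (n - i - p) < M * ‖deriv^[p] a t i‖ ^ (n - i))}

noncomputable def Tc (i : Fin n) (b : Bool) : (Fin n → ℂ) →L[ℝ] ℝ :=
  (if b then Complex.reCLM else Complex.imCLM).comp (ContinuousLinearMap.proj i)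

lemma Tc_le (i : Fin n) (b : Bool) (c : Fin n → ℂ) : ‖Tc i b c‖ ≤ ‖c i‖ := by
  cases b
  · simpa [Tc] using Complex.abs_im_le_norm (c i)
  · simpa [Tc] using Complex.abs_re_le_norm (c i)

lemma Tc_ge (i : Fin n) (c : Fin n → ℂ) : ∃ b, ‖c i‖ ≤ 2 * ‖Tc i b c‖ := by
  have := Complex.norm_le_abs_re_add_abs_im (c i)
  rcases le_total |(c i).re| |(c i).im| with h | h
  · exact ⟨false, by simp [Tc]; linarith⟩
  · exact ⟨true, by simp [Tc]; linarith⟩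

lemma W_vol {k : ℕ} (hn : n ≤ k + 1) {e : ℝ} (he : 0 < e) (hen : e * (n - 1) ≤ n) (K M : ℝ)
    (hK : 0 ≤ K) (hM : 1 ≤ M) : ∃ C, 0 ≤ C ∧ ∀ a : ℝ → Fin n → ℂ, L (-1) 1 k K a → ∀ g, 1 ≤ g →
      volume (W M g a) ≤ ENNReal.ofReal (C * g ^ (-e)) := by
  have h1 : ∀ i : Fin n, ∃ C, 0 ≤ C ∧ ∀ φ : ℝ → ℝ, L (-1) 1 k ((k + 1) * K) φ → ∀ δ, 0 < δ →
      volume (bad (n - i) (δ ^ (n - i - 1)) φ ∩ Ioo (-3 / 4) (3 / 4)) ≤ ENNReal.ofReal (C * δ) := by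
    intro i
    by_cases h : 2 ≤ n - i
    · exact gg h (by omega) _
    · refine ⟨0, le_rfl, fun φ _ δ _ => ?_⟩
      have : bad (n - i) (δ ^ (n - i - 1)) φ = ∅ := by
        ext t
        simp only [bad, mem_ofPred_eq, mem_empty_iff_false, iff_false]
        rintro ⟨p, h1, h2, -⟩
        omega
      simp [this]
  choose C hC H using h1
  have hS : 0 ≤ ∑ i, C i := Finset.sum_nonneg fun i _ => hC i
  refine ⟨2 * 2 ^ e + 2 * (∑ i, C i) * (2 ^ n * M), by positivity, fun a ha g hg => ?_⟩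
  have hg0 : 0 < g := by linarith
  have hge : 0 < g ^ (-e) := by positivity
  by_cases hg2 : g < 2
  · refine (measure_mono (fun t ht => ht.1)).trans ?_
    rw [Real.volume_Ioo]
    refine ENNReal.ofReal_le_ofReal ?_
    have h2 : 1 ≤ 2 ^ e * g ^ (-e) := by
      rw [Real.rpow_neg hg0.le, ← div_eq_mul_inv, ← Real.div_rpow (by norm_num) hg0.le]
      exact Real.one_le_rpow ((one_le_div hg0).2 hg2.le) he.le
    have h3 : 0 ≤ 2 * (∑ i, C i) * (2 ^ n * M) * g ^ (-e) := by positivity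
    nlinarith
  obtain ⟨δ, hδ⟩ : ∃ δ, δ = 2 ^ n * M * g ^ (-e) := ⟨_, rfl⟩
  have hδ0 : 0 < δ := by rw [hδ]; positivity
  have hm : ∀ τ ∈ Ioo (-1 : ℝ) 1, 0 + 1 * τ ∈ Ioo (-1 : ℝ) 1 := by simp
  have hcov : W M g a ⊆ ⋃ x : Fin n × Bool,
      bad (n - x.1) (δ ^ (n - x.1 - 1)) (sc (Tc x.1 x.2) 0 1 a) ∩ Ioo (-3 / 4) (3 / 4) := by
    rintro t ⟨ht, h | ⟨i, p, h1, hp, h⟩⟩
    · exact absurd h hg2
    have ht' : t ∈ Ioo (-1 : ℝ) 1 := ⟨by linarith [ht.1], by linarith [ht.2]⟩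
    obtain ⟨b, hb⟩ := Tc_ge i (deriv^[p] a t)
    refine mem_iUnion.2 ⟨(i, b), ⟨p, h1, hp, ?_⟩, ht⟩
    rw [(sc_iter ha (Tc i b) 0 1 hm (by omega : p ≤ k)).1 t ht']
    simp only [sc, one_pow, one_smul, zero_add, one_mul]
    obtain ⟨j, hj⟩ : ∃ j, j = n - i := ⟨_, rfl⟩
    rw [← hj] at h hp ⊢
    have hjn : j ≤ n := by omega
    obtain ⟨y, hy⟩ : ∃ y, y = ‖Tc i b (deriv^[p] a t)‖ := ⟨_, rfl⟩
    rw [← hy] at hb ⊢
    have hy0 : 0 ≤ y := hy ▸ norm_nonneg _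
    have h2 : 2 ^ n * M ≤ g ^ j * δ ^ (j - 1) := by
      have hx : (1 : ℝ) ≤ 2 ^ n * M := one_le_mul_of_one_le_of_one_le (one_le_pow₀ (by norm_num)) hM
      rw [hδ, mul_pow, mul_left_comm]
      refine (le_self_pow₀ hx (by omega : j - 1 ≠ 0)).trans (le_mul_of_one_le_right (by positivity) ?_)
      rw [← Real.rpow_natCast, ← Real.rpow_natCast, ← Real.rpow_mul hg0.le, ← Real.rpow_add hg0]
      refine Real.one_le_rpow hg ?_
      rw [Nat.cast_sub (by omega), Nat.cast_one]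
      have hj1 : (1 : ℝ) ≤ j := by exact_mod_cast (by omega : 1 ≤ j)
      have hj2 : (j : ℝ) ≤ n := by exact_mod_cast hjn
      rcases le_total e 1 with h | h <;> nlinarith
    have h3 : (g ^ p) ^ j * ‖Tc i b (a t)‖ ^ (j - p) < (g ^ p) ^ j * ((δ ^ (j - 1)) ^ p * y ^ j) := by
      calc _ ≤ (g ^ p) ^ j * ‖a t i‖ ^ (j - p) := by gcongr; exact Tc_le i b _
        _ < M * ‖deriv^[p] a t i‖ ^ j := h
        _ ≤ M * (2 * y) ^ j := by gcongr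
        _ ≤ 2 ^ n * M * y ^ j := by
            rw [mul_pow, ← mul_assoc, mul_comm M]
            gcongr
            norm_num
        _ ≤ (g ^ j * δ ^ (j - 1)) ^ p * y ^ j := by
            have hx : (1 : ℝ) ≤ 2 ^ n * M :=
              one_le_mul_of_one_le_of_one_le (one_le_pow₀ (by norm_num)) hM
            exact mul_le_mul_of_nonneg_right
              (h2.trans (le_self_pow₀ (hx.trans h2) (by omega))) (by positivity)
        _ = _ := by rw [mul_pow, ← pow_mul, ← pow_mul g p, mul_comm p j]; ring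
    exact lt_of_mul_lt_mul_left h3 (by positivity)
  refine (measure_mono hcov).trans ((measure_iUnion_fintype_le _ _).trans ?_)
  refine (Finset.sum_le_sum fun x _ => H x.1 _ (sc_L' ha hK _ (fun c => (Tc_le x.1 x.2 c).trans
    (norm_le_pi_norm _ _)) 0 1 one_pos le_rfl hm) δ hδ0).trans ?_
  rw [← ENNReal.ofReal_sum_of_nonneg fun x _ => mul_nonneg (hC _) hδ0.le]
  refine ENNReal.ofReal_le_ofReal ?_
  rw [Fintype.sum_prod_type]
  simp only [Finset.sum_const, Finset.card_univ, Fintype.card_bool, nsmul_eq_mul]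
  rw [← Finset.mul_sum, ← Finset.sum_mul, hδ]
  have h3 : 0 ≤ 2 * 2 ^ e * g ^ (-e) := by positivity
  push_cast
  nlinarith

end Pool.Agent.H.MP_6562b9_an
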