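import Pool.Agent.H.MP_6562b9_an.D

namespace Pool.Agent.H.MP_6562b9_an

open Set Metric MeasureTheory Filter Topology

variable {n : ℕ}

def good (a : ℝ → Fin n → ℂ) (t ρ g : ℝ) : Prop :=
  1 ≤ g ∧ ∀ (i : Fin n) (p : ℕ), 1 ≤ p → p < n - i → ‖deriv^[p] a t i‖ ≤ g ^ p * ρ ^ (n - i - p)

def nrm (c : Fin n → ℂ) (ρ : ℝ) : Prop :=
  0 < ρ ∧ (∀ i : Fin n, ‖c i‖ ≤ ρ ^ (n - i)) ∧ ∃ i : Fin n, ‖c i‖ = ρ ^ (n - i)

lemma step {k : ℕ} {q : ℝ} (hn : n + 1 ≤ k + 2) (ih : ∀ m ≤ n, Cl k m q) (K : ℝ) (hK : 1 ≤ K) :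
    ∃ M, 1 ≤ M ∧ ∃ C, 0 ≤ C ∧ ∀ a : ℝ → Fin (n + 1) → ℂ, B (-1) 1 (k + 1) K a →
      (∀ t, a t (Fin.last n) = 0) → ∀ t0 ∈ Ioo (-1 / 2 : ℝ) (1 / 2), ∀ ρ g, nrm (a t0) ρ →
      good a t0 ρ g → ¬ good a t0 ρ (g / 2) → ∃ r, 0 < r ∧ r ≤ 1 ∧ ball t0 r ⊆ W M g a ∧
        ∀ s, 0 < s → volume (S s a ∩ ball t0 (4 * r)) ≤ ENNReal.ofReal (C * (s / g) ^ (-q) * r) := by
  have hK0 : 0 < K := by linarith
  obtain ⟨e1, he1⟩ : ∃ e1 : ℝ, e1 = 1 / (4 * K) := ⟨_, rfl⟩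
  have he10 : 0 < e1 := by rw [he1]; positivity
  have he1K : e1 * K = 1 / 4 := by rw [he1]; field_simp
  have he11 : e1 ≤ 1 := by nlinarith
  obtain ⟨K1, hK1⟩ : ∃ K1 : ℝ, K1 = (((k + 1 : ℕ) : ℝ) + 1) * K := ⟨_, rfl⟩
  have hK10 : 0 < K1 := by rw [hK1]; positivity
  obtain ⟨c1, hc1⟩ : ∃ c1 : ℝ, c1 = (e1 / 2) ^ (n + 1) := ⟨_, rfl⟩
  have hc10 : 0 < c1 := by rw [hc1]; positivity
  have hc11 : c1 ≤ 1 := hc1 ▸ pow_le_one₀ (by positivity) (by linarith)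
  obtain ⟨η, hη, C, hC, H⟩ := unif ih ((((k + 1 : ℕ) : ℝ) + 1) * K1 + (1 + K1)) (by positivity)
  obtain ⟨e2, he2⟩ : ∃ e2 : ℝ, e2 = min 1 (min η (c1 / 2) / K1) := ⟨_, rfl⟩
  have he20 : 0 < e2 := by rw [he2]; positivity
  have he21 : e2 ≤ 1 := he2 ▸ min_le_left _ _
  have he2K : K1 * e2 ≤ min η (c1 / 2) := by
    have : e2 ≤ min η (c1 / 2) / K1 := he2 ▸ min_le_right _ _
    rw [le_div_iff₀ (by positivity)] at this
    linarith
  have hM1 : 1 ≤ (1 + K1) ^ (n + 1) := one_le_pow₀ (by linarith)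
  have hM2' : 1 ≤ 2 / c1 := by rw [le_div_iff₀ hc10]; linarith
  have hM2 : 1 ≤ (2 / c1) ^ (n + 1) := one_le_pow₀ hM2'
  refine ⟨2 * ((1 + K1) ^ (n + 1) * (2 / c1) ^ (n + 1)), by nlinarith,
    C * (e1 * e2) ^ (-q) * 8, by positivity, ?_⟩
  intro a ha hl t0 ht0 ρ g ⟨hρ, hup, i0, hi0⟩ hg hng
  have hg0 : 0 < g := by linarith [hg.1]
  have ht0' : t0 ∈ Ioo (-1 : ℝ) 1 := ⟨by linarith [ht0.1], by linarith [ht0.2]⟩
  have hρK : ρ ≤ K := by
    by_contra hc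
    have h1 := (norm_le_pi_norm _ i0).trans (ha.2 t0 ht0')
    have h2 : ρ ≤ ρ ^ (n + 1 - i0) := le_self_pow₀ (by linarith) (by have := i0.2; omega)
    linarith
  obtain ⟨r1, hr1⟩ : ∃ r1, r1 = e1 * ρ / g := ⟨_, rfl⟩
  have hr10 : 0 < r1 := by rw [hr1]; positivity
  have hr14 : r1 ≤ 1 / 4 := by
    rw [hr1]
    exact (div_le_self (by positivity) hg.1).trans
      (he1K ▸ mul_le_mul_of_nonneg_left hρK he10.le)
  have hm1 : ∀ τ ∈ Ioo (-1 : ℝ) 1, t0 + r1 * τ ∈ Ioo (-1 : ℝ) 1 := by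
    intro τ hτ
    constructor <;> nlinarith [hτ.1, hτ.2, ht0.1, ht0.2]
  have hm2 : ∀ τ ∈ Ioo (-1 : ℝ) 1, 0 + e2 * τ ∈ Ioo (-1 : ℝ) 1 := by
    intro τ hτ
    constructor <;> nlinarith [hτ.1, hτ.2]
  have hpw : ∀ p j : ℕ, j ≤ p → r1 ^ p * (ρ ^ j)⁻¹ ≤ 1 := by
    intro p j hj
    obtain ⟨d, rfl⟩ : ∃ d, p = j + d := ⟨p - j, by omega⟩
    have e : r1 ^ (j + d) * (ρ ^ j)⁻¹ = (e1 / g) ^ j * r1 ^ d := by
      rw [pow_add, hr1, div_pow, div_pow e1, mul_pow]; field_simp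
    rw [e]
    exact mul_le_one₀ (pow_le_one₀ (by positivity) ((div_le_self he10.le hg.1).trans he11))
      (by positivity) (pow_le_one₀ hr10.le (by linarith))
  have hpe : ∀ (x : ℝ) (p j : ℕ), p < j →
      r1 ^ p * (ρ ^ j)⁻¹ * ((x * g) ^ p * ρ ^ (j - p)) = (x * e1) ^ p := by
    intro x p j hj
    obtain ⟨d, rfl⟩ : ∃ d, j = p + d := ⟨j - p, by omega⟩
    rw [Nat.add_sub_cancel_left, pow_add, hr1, div_pow, mul_pow, mul_pow, mul_pow]
    field_simp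
  obtain ⟨b, hb⟩ : ∃ b, b = sc (T (n + 1) ρ) t0 r1 a := ⟨_, rfl⟩
  have hbL : L (-1) 1 (k + 1) K1 b := by
    rw [hb, hK1]
    refine sc_L ha.1 _ t0 _ hr10 hm1 hK0.le ?_ ?_
    · intro p h1 hp
      refine T_le hρ (by positivity) hK0.le _ fun i => ?_
      by_cases hpi : p < n + 1 - i
      · calc _ ≤ r1 ^ p * (ρ ^ (n + 1 - i))⁻¹ * ((1 * g) ^ p * ρ ^ (n + 1 - i - p)) := by
              rw [one_mul]; gcongr; exact hg.2 i p h1 hpi
          _ = (1 * e1) ^ p := hpe 1 p _ hpi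
          _ ≤ K := (pow_le_one₀ (by positivity) (by linarith)).trans hK
      · calc _ ≤ 1 * K := mul_le_mul (hpw p _ (by omega))
              ((norm_le_pi_norm _ i).trans (ha.1.ibd hK0.le h1 hp t0 ht0')) (norm_nonneg _)
              zero_le_one
          _ = K := one_mul K
    · intro s hs t ht
      refine T_le hρ (by positivity) (by positivity) _ fun i => ?_
      calc _ ≤ 1 * (K * |s - t|) := mul_le_mul (hpw _ _ (by omega))
              ((norm_le_pi_norm _ i).trans (ha.1.ilp le_rfl s hs t ht)) (norm_nonneg _) zero_le_one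
        _ = _ := one_mul _
  have hb0 : b 0 = T (n + 1) ρ (a t0) := by simp [hb, sc]
  have hb1 : ‖b 0‖ = 1 := by
    rw [hb0]
    refine le_antisymm ((pi_norm_le_iff_of_nonneg zero_le_one).2 fun i => ?_) ?_
    · rw [T_norm hρ, inv_mul_le_iff₀ (by positivity), mul_one]; exact hup i
    · refine le_trans (le_of_eq ?_) (norm_le_pi_norm _ i0)
      rw [T_norm hρ, hi0]; field_simp
  have hbb : ∀ τ ∈ Ioo (-1 : ℝ) 1, ‖b τ‖ ≤ 1 + K1 := by
    intro τ hτ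
    have h1 := hbL.lp τ hτ 0 (by simp)
    have h2 : K1 * |τ - 0| ≤ K1 :=
      mul_le_of_le_one_right hK10.le (by rw [sub_zero, abs_le]; exact ⟨hτ.1.le, hτ.2.le⟩)
    have h3 := norm_add_le (b τ - b 0) (b 0)
    rw [sub_add_cancel] at h3
    linarith
  have hρ' : 0 < r1 * e2 := by positivity
  have hρ1 : r1 * e2 ≤ r1 := mul_le_of_le_one_right hr10.le he21
  refine ⟨r1 * e2 / 8, by positivity, by linarith, ?_, ?_⟩
  · intro t ht
    rw [mem_ball, Real.dist_eq] at ht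
    have h1 := abs_lt.1 ht
    refine ⟨⟨by linarith [ht0.1], by linarith [ht0.2]⟩, ?_⟩
    by_cases hg2 : g < 2
    · exact Or.inl hg2
    right
    have hng' : ¬ ∀ (i : Fin (n + 1)) (p : ℕ), 1 ≤ p → p < n + 1 - i →
        ‖deriv^[p] a t0 i‖ ≤ (g / 2) ^ p * ρ ^ (n + 1 - i - p) := fun h => hng ⟨by linarith, h⟩
    push Not at hng'
    obtain ⟨i, p, hp1, hp, hlo⟩ := hng'
    refine ⟨i, p, hp1, hp, ?_⟩
    obtain ⟨τ, hτ⟩ : ∃ τ, τ = (t - t0) / r1 := ⟨_, rfl⟩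
    have hτ1 : |τ - 0| < e2 := by
      rw [sub_zero, hτ, abs_div, abs_of_pos hr10, div_lt_iff₀ hr10]; linarith
    have hτ2 : τ ∈ Ioo (-1 : ℝ) 1 := by
      have := abs_lt.1 hτ1
      constructor <;> linarith
    have ht' : t0 + r1 * τ = t := by rw [hτ]; field_simp; ring
    have hd : ∀ τ ∈ Ioo (-1 : ℝ) 1, ‖deriv^[p] b τ i‖ =
        r1 ^ p * (ρ ^ (n + 1 - i))⁻¹ * ‖deriv^[p] a (t0 + r1 * τ) i‖ := by
      intro τ hτ
      rw [hb, (sc_iter ha.1 _ t0 r1 hm1 (by omega : p ≤ k + 1)).1 τ hτ, Pi.smul_apply, norm_smul,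
        T_norm hρ, Real.norm_eq_abs, abs_of_pos (by positivity), mul_assoc]
    have h2 : c1 ≤ ‖deriv^[p] b 0 i‖ := by
      rw [hd 0 (by simp), mul_zero, add_zero]
      calc c1 ≤ (1 / 2 * e1) ^ p := by
            rw [hc1, show 1 / 2 * e1 = e1 / 2 by ring]
            exact pow_le_pow_of_le_one (by positivity) (by linarith) (by omega)
        _ = _ := (hpe (1 / 2) p _ hp).symm
        _ ≤ _ := by rw [show 1 / 2 * g = g / 2 by ring]; gcongr
    have h3 := (norm_le_pi_norm _ i).trans (hbL.ilp (by omega : p ≤ k + 1) τ hτ2 0 (by simp))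
    have h4 := norm_sub_norm_le (deriv^[p] b 0 i) (deriv^[p] b τ i)
    rw [norm_sub_rev] at h4
    rw [Pi.sub_apply] at h3
    have h5 : K1 * |τ - 0| ≤ c1 / 2 :=
      (mul_le_mul_of_nonneg_left hτ1.le hK10.le).trans (he2K.trans (min_le_right _ _))
    have h6 : c1 / 2 ≤ ‖deriv^[p] b τ i‖ := by linarith
    rw [hd τ hτ2, ht'] at h6
    have h7 := (norm_le_pi_norm _ i).trans (hbb τ hτ2)
    rw [hb] at h7
    simp only [sc] at h7
    rw [T_norm hρ, ht', inv_mul_le_iff₀ (by positivity)] at h7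
    obtain ⟨j, hj⟩ : ∃ j, j = n + 1 - i := ⟨_, rfl⟩
    rw [← hj] at h6 h7 hp ⊢
    obtain ⟨y, hy⟩ : ∃ y, y = ‖deriv^[p] a t i‖ := ⟨_, rfl⟩
    rw [← hy] at h6 ⊢
    have hy0 : 0 ≤ y := hy ▸ norm_nonneg _
    have h8 : g ^ p * ρ ^ (j - p) ≤ 2 / c1 * y := by
      have h9 := hpe 1 p j hp
      rw [one_mul, one_mul] at h9
      have h10 : 0 < r1 ^ p * (ρ ^ j)⁻¹ := by positivity
      refine le_of_mul_le_mul_left ?_ h10
      rw [h9, mul_left_comm]
      refine (pow_le_one₀ he10.le he11).trans ?_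
      rw [div_mul_eq_mul_div, le_div_iff₀ hc10]
      linarith
    have hyp : 0 < y := by
      by_contra hc
      have : y = 0 := le_antisymm (not_lt.1 hc) hy0
      rw [this, mul_zero] at h6
      linarith
    calc (g ^ p) ^ j * ‖a t i‖ ^ (j - p) ≤ (g ^ p) ^ j * (ρ ^ j * (1 + K1)) ^ (j - p) := by gcongr
      _ = (1 + K1) ^ (j - p) * (g ^ p * ρ ^ (j - p)) ^ j := by
          rw [mul_pow, mul_pow, ← pow_mul ρ, ← pow_mul ρ, mul_comm j]; ring
      _ ≤ (1 + K1) ^ (n + 1) * (2 / c1 * y) ^ j := by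
          gcongr
          · linarith
          · omega
      _ ≤ (1 + K1) ^ (n + 1) * ((2 / c1) ^ (n + 1) * y ^ j) := by
          rw [mul_pow]
          gcongr
          omega
      _ < _ := by
          have : 0 < (1 + K1) ^ (n + 1) * ((2 / c1) ^ (n + 1) * y ^ j) := by positivity
          linarith
  · intro s hs
    obtain ⟨h, hh⟩ : ∃ h, h = sc (ContinuousLinearMap.id ℝ _) 0 e2 b := ⟨_, rfl⟩
    have hh' : h = sc (T (n + 1) ρ) t0 (r1 * e2) a := by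
      rw [hh, hb]; funext τ; simp [sc, mul_assoc]
    have hhB : B (-1) 1 (k + 1) ((((k + 1 : ℕ) : ℝ) + 1) * K1 + (1 + K1)) h := by
      refine ⟨(hh ▸ sc_L' hbL hK10.le _ (fun x => by simp) 0 e2 he20 he21 hm2).mono
        (by linarith), fun τ hτ => ?_⟩
      have := hbb _ (hm2 τ hτ)
      have h2 : 0 ≤ (((k + 1 : ℕ) : ℝ) + 1) * K1 := by positivity
      rw [hh]; simp only [sc, ContinuousLinearMap.id_apply]; linarith
    have h1 := H (b 0) ⟨by simpa using hb1, by simp [hb0, T_apply, hl]⟩ h hhB (fun τ hτ => by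
      have h1 := hbL.lp _ (hm2 τ hτ) 0 (by simp)
      have h2 : |0 + e2 * τ - 0| ≤ e2 := by
        rw [zero_add, sub_zero, abs_mul, abs_of_pos he20]
        exact mul_le_of_le_one_right he20.le (abs_le.2 ⟨hτ.1.le, hτ.2.le⟩)
      have h3 := mul_le_mul_of_nonneg_left h2 hK10.le
      rw [hh]; simp only [sc, ContinuousLinearMap.id_apply]
      linarith [min_le_left η (c1 / 2)]) (s * (r1 * e2) / ρ) (by positivity)
    refine (aff _ (S (s * (r1 * e2) / ρ) h ∩ Ioo (-1 / 2) (1 / 2)) t0 (r1 * e2) hρ' ?_).trans ?_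
    · intro t ⟨hS, ht⟩
      rw [mem_ball, Real.dist_eq] at ht
      have h2 := abs_lt.1 ht
      obtain ⟨τ, hτ⟩ : ∃ τ, τ = (t - t0) / (r1 * e2) := ⟨_, rfl⟩
      have hτ1 : τ ∈ Ioo (-1 / 2 : ℝ) (1 / 2) := by
        rw [hτ, mem_Ioo, lt_div_iff₀ hρ', div_lt_iff₀ hρ']
        constructor <;> linarith
      rw [← hτ]
      refine ⟨?_, hτ1⟩
      rw [hh']
      refine S_sc (a' := -1) (b' := 1) ha.1 hρ hρ' (fun τ hτ => ?_)
        ⟨by linarith [hτ1.1], by linarith [hτ1.2]⟩ ?_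
      · have := hm1 _ (hm2 τ hτ)
        rwa [zero_add, ← mul_assoc] at this
      · have e : t0 + r1 * e2 * τ = t := by rw [hτ]; field_simp; ring
        rwa [e]
    · refine (mul_le_mul_right h1 _).trans ?_
      rw [← ENNReal.ofReal_mul hρ'.le]
      refine ENNReal.ofReal_le_ofReal (le_of_eq ?_)
      have e : s * (r1 * e2) / ρ = e1 * e2 * (s / g) := by rw [hr1]; field_simp
      rw [e, Real.mul_rpow (by positivity) (by positivity)]
      ring

lemma triv {k : ℕ} {e : ℝ} (he : 0 < e) (h : ∀ K : ℝ, ∃ C s0, 0 ≤ C ∧ 0 < s0 ∧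
    ∀ a : ℝ → Fin n → ℂ, B (-1) 1 (k + 1) K a → ∀ s, s0 ≤ s →
      volume (S s a ∩ Ioo (-1 / 2) (1 / 2)) ≤ ENNReal.ofReal (C * s ^ (-e))) : Cl k n e := by
  intro K
  obtain ⟨C, s0, hC, hs0, H⟩ := h K
  refine ⟨C + s0 ^ e, by positivity, fun a ha s hs => ?_⟩
  have h1 : 0 ≤ C * s ^ (-e) := by positivity
  have h2 : 0 ≤ s0 ^ e * s ^ (-e) := by positivity
  rcases le_total s0 s with h | h
  · exact (H a ha s h).trans (ENNReal.ofReal_le_ofReal (by linarith))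
  · refine (measure_mono inter_subset_right).trans ?_
    rw [Real.volume_Ioo]
    refine ENNReal.ofReal_le_ofReal ?_
    have h2 : 1 ≤ s0 ^ e * s ^ (-e) := by
      rw [Real.rpow_neg hs.le, ← div_eq_mul_inv, ← Real.div_rpow hs0.le hs.le]
      exact Real.one_le_rpow ((one_le_div hs).2 h) he.le
    linarith

lemma main0 {k : ℕ} {e q : ℝ} (hn1 : 1 ≤ n) (hn : n + 1 ≤ k + 2) (he : 0 < e)
    (hen : e * n ≤ n + 1) (heq : e < q) (ih : ∀ m ≤ n, Cl k m q) (K : ℝ) (hK : 1 ≤ K) :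
    ∃ C, 0 ≤ C ∧ ∀ a : ℝ → Fin (n + 1) → ℂ, B (-1) 1 (k + 1) K a →
      (∀ t, a t (Fin.last n) = 0) → ∀ s, 1 ≤ s →
      volume (S s a ∩ Ioo (-1 / 2) (1 / 2)) ≤ ENNReal.ofReal (C * s ^ (-e)) := by
  obtain ⟨M, hM, C, hC, H⟩ := step hn ih K hK
  obtain ⟨C', hC', H'⟩ := W_vol (n := n + 1) (k := k + 1) hn he (by push_cast; linarith) K M
    (by linarith) hM
  obtain ⟨x, hx⟩ : ∃ x : ℝ, x = 2 ^ (e - q) := ⟨_, rfl⟩
  have hx0 : 0 < x := by rw [hx]; positivity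
  have hx1 : x < 1 := hx ▸ Real.rpow_lt_one_of_one_lt_of_neg (by norm_num) (by linarith)
  have hx2 : 0 < 1 - x := by linarith
  refine ⟨C' + C * C' * (1 - x)⁻¹, by positivity, fun a ha hl s hs => ?_⟩
  have hs0 : 0 < s := by linarith
  obtain ⟨A, hA⟩ : ∃ A : ℕ → Set ℝ, A = fun l => {t | t ∈ Ioo (-1 / 2 : ℝ) (1 / 2) ∧
    ∃ ρ, nrm (a t) ρ ∧ good a t ρ (s / 2 ^ l) ∧ ¬ good a t ρ (s / 2 ^ l / 2)} := ⟨_, rfl⟩
  have hcov : S s a ∩ Ioo (-1 / 2) (1 / 2) ⊆ W M s a ∪ ⋃ l, S s a ∩ A l := by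
    intro t ⟨hS, ht⟩
    have h0 : a t ≠ 0 := by
      intro h0
      obtain ⟨z, h1, h2, -⟩ := hS
      rw [h0] at h1 h2
      simp only [ev, lin, Pi.zero_apply, zero_mul, Finset.sum_const_zero, add_zero, ev1] at h1 h2
      rw [pow_eq_zero_iff (by omega)] at h1
      rw [h1, zero_pow (by omega), mul_zero] at h2
      exact h2 rfl
    obtain ⟨ρ, hρ⟩ := rho _ h0
    by_cases hg : good a t ρ s
    · obtain ⟨l, h1, h2⟩ := lev (fun l => good a t ρ (s / 2 ^ l)) (by simpa using hg) (by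
        obtain ⟨l, hl⟩ := pow_unbounded_of_one_lt s (by norm_num : (1 : ℝ) < 2)
        exact ⟨l, fun h => absurd h.1 (not_le.2 ((div_lt_one (by positivity)).2 hl))⟩)
      rw [pow_succ, ← div_div] at h2
      exact Or.inr (mem_iUnion.2 ⟨l, hS, by rw [hA]; exact ⟨ht, ρ, hρ, h1, h2⟩⟩)
    · left
      refine ⟨⟨by linarith [ht.1], by linarith [ht.2]⟩, Or.inr ?_⟩
      have hng' : ¬ ∀ (i : Fin (n + 1)) (p : ℕ), 1 ≤ p → p < n + 1 - i →
        ‖deriv^[p] a t i‖ ≤ s ^ p * ρ ^ (n + 1 - i - p) := fun h => hg ⟨hs, h⟩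
      push Not at hng'
      obtain ⟨i, p, hp1, hp, hlo⟩ := hng'
      refine ⟨i, p, hp1, hp, ?_⟩
      have h1 := hρ.2.1 i
      have h2 := hρ.1
      calc _ ≤ (s ^ p) ^ (n + 1 - i) * (ρ ^ (n + 1 - i)) ^ (n + 1 - i - p) := by gcongr
        _ = (s ^ p * ρ ^ (n + 1 - i - p)) ^ (n + 1 - i) := by
            rw [mul_pow, ← pow_mul ρ, ← pow_mul ρ, mul_comm (n + 1 - i)]
        _ < ‖deriv^[p] a t i‖ ^ (n + 1 - i) :=
            pow_lt_pow_left₀ hlo (by positivity) (by omega)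
        _ ≤ _ := le_mul_of_one_le_left (by positivity) hM
  refine (measure_mono hcov).trans ((measure_union_le _ _).trans ?_)
  have hse : 0 < s ^ (-e) := by positivity
  refine (add_le_add (H' a ha.1 s hs) (geo _ (C * C' * s ^ (-e)) x (by positivity) hx0.le hx1
    fun l => ?_)).trans ?_
  · by_cases hg : 1 ≤ s / 2 ^ l
    · refine (vit _ (A l) (W M (s / 2 ^ l) a) (C * (s / (s / 2 ^ l)) ^ (-q)) 1 (by positivity)
        ?_).trans ?_
      · intro t ht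
        rw [hA] at ht
        obtain ⟨ht, ρ, h1, h2, h3⟩ := ht
        obtain ⟨r, hr, hr1, hb, hv⟩ := H a ha hl t ht ρ _ h1 h2 h3
        exact ⟨r, hr, hr1, hb, hv s hs0⟩
      · refine (mul_le_mul_right (H' a ha.1 _ hg) _).trans ?_
        rw [← ENNReal.ofReal_mul (by positivity)]
        refine ENNReal.ofReal_le_ofReal (le_of_eq ?_)
        have e1 : s / (s / 2 ^ l) = 2 ^ l := by field_simp
        have e2 : x ^ l = ((2 : ℝ) ^ l) ^ (-q) / ((2 : ℝ) ^ l) ^ (-e) := by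
          rw [← Real.rpow_sub (by positivity), hx, ← Real.rpow_natCast, ← Real.rpow_natCast,
            ← Real.rpow_mul (by norm_num), ← Real.rpow_mul (by norm_num)]
          congr 1; ring
        rw [e1, e2, Real.div_rpow hs0.le (by positivity)]
        ring
    · have : A l = ∅ := by
        rw [hA]
        ext t
        simp only [mem_ofPred_eq, mem_empty_iff_false, iff_false]
        rintro ⟨-, ρ, -, h, -⟩
        exact hg h.1
      simp [this]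
  · rw [← ENNReal.ofReal_add (by positivity) (by positivity)]
    exact ENNReal.ofReal_le_ofReal (le_of_eq (by ring))

lemma cl_all (k : ℕ) : ∀ n ≤ k + 2, ∀ e : ℝ, 0 < e → e * (n - 1) ≤ n → Cl k n e := by
  intro n
  induction n using Nat.strong_induction_on with
  | _ n ih =>
  intro hn e he hen
  match n with
  | 0 =>
    refine fun K => ⟨0, le_rfl, fun a _ s _ => ?_⟩
    have : S s a = ∅ := by ext t; simp [S, ev, lin]
    simp [this]
  | 1 =>
    refine triv he fun K => ⟨0, max K 1, le_rfl, by positivity, fun a ha s hs => ?_⟩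
    have : S s a ∩ Ioo (-1 / 2) (1 / 2) = ∅ := by
      ext t
      simp only [mem_empty_iff_false, iff_false]
      rintro ⟨⟨z, -, -, h⟩, ht⟩
      have h1 := (norm_le_pi_norm _ 0).trans (((ha.mono (le_max_left K 1)).1.lp.bd (by positivity)) t
        ⟨by linarith [ht.1], by linarith [ht.2]⟩)
      simp [ev1, lin] at h
      linarith
    rw [this]; simp
  | n + 2 =>
    refine triv he fun K0 => ?_
    obtain ⟨K, hK⟩ : ∃ K, K = max K0 1 := ⟨_, rfl⟩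
    have hK1 : 1 ≤ K := hK ▸ le_max_right _ _
    obtain ⟨K1, hK10, H1⟩ := comp univ (closedBall (0 : Fin (n + 2) → ℂ) K) isOpen_univ
      (isCompact_closedBall _ _) (convex_closedBall _ _) (subset_univ _) K (by linarith) (k + 1) _
      (tsh (n := n + 1)) tsh_sm.contDiffOn
    have hn0 : (0 : ℝ) ≤ n := Nat.cast_nonneg n
    push_cast at hen
    obtain ⟨C, hC, H⟩ := main0 (n := n + 1) (k := k) (e := e) (q := (2 * n + 3) / (2 * n + 1))
      (by omega) hn he (by push_cast; linarith)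
      (by rw [lt_div_iff₀ (by positivity)]; nlinarith)
      (fun m hm => ih m (by omega) (by omega) _ (by positivity) (by
        have : (m : ℝ) ≤ n + 1 := by exact_mod_cast hm
        rw [div_mul_eq_mul_div, div_le_iff₀ (by positivity)]; nlinarith)) (K1 + 1) (by linarith)
    refine ⟨C * 2 ^ e, 2 * K, by positivity, by positivity, fun a ha s hs => ?_⟩
    replace ha := ha.mono (hK ▸ le_max_left _ _ : K0 ≤ K)
    have h1 := H _ ((H1 _ _ a ha fun t ht => mem_closedBall_zero_iff.2 (ha.2 t ht)).mono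
      (by linarith)) (fun t => tsh_last _) (s / 2) (by linarith)
    refine (measure_mono ?_).trans (h1.trans (le_of_eq ?_))
    · intro t ⟨hS, ht⟩
      have ht' : t ∈ Ioo (-1 : ℝ) 1 := ⟨by linarith [ht.1], by linarith [ht.2]⟩
      exact ⟨S_tsh (ha.1.2.1 t ht') (ha.1.1.bd (by linarith) t ht') hs hS, ht⟩
    · rw [Real.div_rpow (by linarith) (by norm_num), Real.rpow_neg (by norm_num : (0 : ℝ) ≤ 2)]
      congr 1
      field_simp

end Pool.Agent.H.MP_6562b9_an
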