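import Pool.Agent.H.MP_6562b9_an.E

namespace Pool.Agent.H.MP_6562b9_an

open Set Metric MeasureTheory Filter Topology

noncomputable def Dm (n : ℕ) : (Fin (n + 1) → ℂ) →L[ℝ] (Fin n → ℂ) :=
  ContinuousLinearMap.pi fun i => ((((i : ℕ) : ℝ) + 1) / (n + 1)) • ContinuousLinearMap.proj i.succ

lemma Dm_apply (n : ℕ) (c : Fin (n + 1) → ℂ) (i : Fin n) :
    Dm n c i = ((((i : ℕ) : ℝ) + 1) / (n + 1)) • c i.succ := by simp [Dm]

lemma Dm_le (n : ℕ) (c : Fin (n + 1) → ℂ) : ‖Dm n c‖ ≤ ‖c‖ := by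
  refine (pi_norm_le_iff_of_nonneg (norm_nonneg _)).2 fun i => ?_
  rw [Dm_apply, norm_smul, Real.norm_eq_abs, abs_of_pos (by positivity)]
  have : ((i : ℕ) : ℝ) ≤ n := by exact_mod_cast i.2.le
  exact (mul_le_of_le_one_left (norm_nonneg _) ((div_le_one (by positivity)).2 (by linarith))).trans
    (norm_le_pi_norm _ _)

lemma Dm_ev (n : ℕ) (c : Fin (n + 1) → ℂ) (z : ℂ) : ev1 c z = (n + 1) * ev (Dm n c) z := by
  have : (n : ℂ) + 1 ≠ 0 := Nat.cast_add_one_ne_zero n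
  simp only [ev1, ev, lin, Fin.sum_univ_succ, mul_add, Finset.mul_sum, Dm_apply, Complex.real_smul]
  simp only [Fin.val_zero, Fin.val_succ, Nat.add_sub_cancel]
  push_cast
  simp only [zero_mul, mul_zero, zero_add]
  congr 1
  refine Finset.sum_congr rfl fun i _ => ?_
  field_simp

lemma root (k : ℕ) {e : ℝ} (he : 0 < e) (hek : e * (k + 1) ≤ k + 2) : ∀ n ≤ k + 2, ∀ K : ℝ, 0 ≤ K →
    ∃ C, 0 ≤ C ∧ ∀ a : ℝ → Fin n → ℂ, B (-1) 1 (k + 1) K a → ∀ (w : ℝ → ℂ) (E : Set ℝ),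
      (∀ t ∈ E, ev (a t) (w t) = 0) → ∀ s, 0 < s →
      volume ({t | t ∈ E ∧ s < ‖deriv w t‖} ∩ Ioo (-1 / 2) (1 / 2)) ≤
        ENNReal.ofReal (C * s ^ (-e)) := by
  intro n
  induction n with
  | zero =>
    refine fun _ K _ => ⟨0, le_rfl, fun a _ w E h s _ => ?_⟩
    have : E = ∅ := eq_empty_of_forall_notMem fun t ht => by simpa [ev, lin] using h t ht
    simp [this]
  | succ n ih =>
    intro hn K hK
    obtain ⟨C1, hC1, H1⟩ := ih (by omega) ((((k + 1 : ℕ) : ℝ) + 1) * K + K) (by positivity)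
    have hn' : (n : ℝ) ≤ k + 1 := by exact_mod_cast (by omega : n ≤ k + 1)
    have hn0 : (0 : ℝ) ≤ n := Nat.cast_nonneg n
    obtain ⟨C2, hC2, H2⟩ := cl_all k (n + 1) hn e he (by
      push_cast
      rcases le_total e 1 with h | h <;> nlinarith) K
    refine ⟨C1 + C2, by positivity, fun a ha w E h s hs => ?_⟩
    have hm : ∀ τ ∈ Ioo (-1 : ℝ) 1, 0 + 1 * τ ∈ Ioo (-1 : ℝ) 1 := by simp
    have hb : B (-1) 1 (k + 1) ((((k + 1 : ℕ) : ℝ) + 1) * K + K) (sc (Dm n) 0 1 a) := by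
      refine ⟨(sc_L' ha.1 hK _ (Dm_le n) 0 1 one_pos le_rfl hm).mono (by linarith), fun t ht => ?_⟩
      have := (Dm_le n _).trans (ha.2 _ (hm t ht))
      have h2 : 0 ≤ (((k + 1 : ℕ) : ℝ) + 1) * K := by positivity
      simp only [sc]; linarith
    have h1 := H1 _ hb w {t | ev1 (a t) (w t) = 0} (fun t ht => by
      have : ev1 (a t) (w t) = 0 := ht
      rw [Dm_ev] at this
      simpa [sc] using (mul_eq_zero.1 this).resolve_left (Nat.cast_add_one_ne_zero n)) s hs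
    have hcov : {t | t ∈ E ∧ s < ‖deriv w t‖} ∩ Ioo (-1 / 2) (1 / 2) ⊆
        ({t | t ∈ {t | ev1 (a t) (w t) = 0} ∧ s < ‖deriv w t‖} ∩ Ioo (-1 / 2) (1 / 2) ∪
        S s a ∩ Ioo (-1 / 2) (1 / 2)) ∪ {x ∈ E | 𝓝[E ∩ Ioi x] x = ⊥} := by
      intro t ⟨⟨hE, hs'⟩, ht⟩
      by_cases h0 : ev1 (a t) (w t) = 0
      · exact Or.inl (Or.inl ⟨⟨h0, hs'⟩, ht⟩)
      by_cases hi : 𝓝[E ∩ Ioi t] t = ⊥
      · exact Or.inr ⟨hE, hi⟩
      refine Or.inl (Or.inr ⟨⟨w t, h t hE, h0, ?_⟩, ht⟩)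
      have hw : DifferentiableAt ℝ w t := by
        by_contra hc
        rw [deriv_zero_of_not_differentiableAt hc, norm_zero] at hs'
        linarith
      have hd := ev_deriv (ha.1.2.1 t ⟨by linarith [ht.1], by linarith [ht.2]⟩).hasDerivAt
        hw.hasDerivAt
      have : (𝓝[E ∩ Ioi t] t).NeBot := ⟨hi⟩
      have h2 := (hasDerivAt_iff_tendsto_slope.1 hd).mono_left
        (nhdsWithin_mono t (s := E ∩ Ioi t) fun x hx => ne_of_gt hx.2)
      have h3 : Tendsto (slope (fun τ => ev (a τ) (w τ)) t) (𝓝[E ∩ Ioi t] t) (𝓝 0) := by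
        refine tendsto_const_nhds.congr' ?_
        filter_upwards [self_mem_nhdsWithin] with x hx
        simp [slope, h x hx.1, h t hE]
      have h4 := tendsto_nhds_unique h2 h3
      rw [eq_neg_of_add_eq_zero_left h4, norm_neg, norm_mul, mul_comm]
      exact mul_lt_mul_of_pos_left hs' (norm_pos_iff.2 h0)
    refine (measure_mono hcov).trans ((measure_union_le _ _).trans ?_)
    rw [(countable_setOfPred_isolated_right_within (s := E)).measure_zero, add_zero]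
    refine (measure_union_le _ _).trans ((add_le_add h1 (H2 a ha s hs)).trans ?_)
    rw [← ENNReal.ofReal_add (by positivity) (by positivity), add_mul]

lemma ext {E : Type} [NormedAddCommGroup E] [NormedSpace ℝ E] [CompleteSpace E] {α β A : ℝ}
    (hαβ : α ≤ β) (hA : 0 ≤ A) (k : ℕ) : ∀ g : ℕ → ℝ → E,
    (∀ i < k, ∀ t ∈ Icc α β, HasDerivWithinAt (g i) (g (i + 1) t) (Icc α β) t) →
    (∀ i ≤ k, ∀ t ∈ Icc α β, ‖g i t‖ ≤ A) →
    (∀ s ∈ Icc α β, ∀ t ∈ Icc α β, ‖g k s - g k t‖ ≤ A * |s - t|) →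
    ∃ F : ℝ → E, Continuous F ∧ (∀ t ∈ Icc α β, F t = g 0 t) ∧ B (α - 2) (β + 2) k (3 ^ k * A) F := by
  induction k with
  | zero =>
    intro g _ h1 h2
    have h3 : ∀ s t : ℝ, ‖g 0 (projIcc α β hαβ s) - g 0 (projIcc α β hαβ t)‖ ≤ A * |s - t| := by
      intro s t
      refine (h2 _ (projIcc α β hαβ s).2 _ (projIcc α β hαβ t).2).trans ?_
      exact mul_le_mul_of_nonneg_left (abs_projIcc_sub_projIcc hαβ) hA
    refine ⟨fun t => g 0 (projIcc α β hαβ t), ?_, fun t ht => by simp [projIcc_of_mem hαβ ht],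
      fun s _ t _ => by simpa using h3 s t, fun t _ => by simpa using h1 0 le_rfl _ (projIcc α β hαβ t).2⟩
    exact (LipschitzWith.of_dist_le' (K := A) fun s t => by
      rw [dist_eq_norm, Real.dist_eq]; exact h3 s t).continuous
  | succ k ih =>
    intro g h0 h1 h2
    obtain ⟨G, hG, hGg, hB⟩ := ih (fun i => g (i + 1)) (fun i hi => h0 (i + 1) (by omega))
      (fun i hi => h1 (i + 1) (by omega)) h2
    obtain ⟨F, hF⟩ : ∃ F : ℝ → E, F = fun t => g 0 α + ∫ x in α..t, G x := ⟨_, rfl⟩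
    have hd : ∀ t, HasDerivAt F (G t) t := fun t =>
      hF ▸ (hG.integral_hasStrictDerivAt α t).hasDerivAt.const_add _
    have hdd : deriv F = G := funext fun t => (hd t).deriv
    have hFg : ∀ t ∈ Icc α β, F t = g 0 t := by
      intro t ht
      have hs : Icc α t ⊆ Icc α β := Icc_subset_Icc_right ht.2
      have := intervalIntegral.integral_eq_sub_of_hasDerivAt_of_le (f := g 0) (f' := G) ht.1
        (fun x hx => ((h0 0 (by omega) x (hs hx)).continuousWithinAt).mono hs)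
        (fun x hx => by
          rw [hGg x (hs (Ioo_subset_Icc_self hx))]
          exact (h0 0 (by omega) x (hs (Ioo_subset_Icc_self hx))).hasDerivAt
            (Icc_mem_nhds hx.1 (hx.2.trans_le ht.2)))
        (hG.intervalIntegrable _ _)
      rw [hF]; beta_reduce; rw [this]; abel
    have h3 : (1 : ℝ) ≤ 3 ^ k := one_le_pow₀ (by norm_num)
    have h4 : A ≤ 3 ^ k * A := le_mul_of_one_le_left hA h3
    refine ⟨F, continuous_iff_continuousAt.2 fun t => (hd t).continuousAt, hFg,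
      B.succ ?_ (fun t _ => (hd t).differentiableAt) (hdd ▸ hB.mono (by rw [pow_succ]; linarith))⟩
    intro t ht
    have hl : Lp (α - 2) (β + 2) (3 ^ k * A) F :=
      Lp.of (fun t _ => (hd t).differentiableAt) (hdd ▸ hB.2)
    obtain ⟨c, hc, hct⟩ : ∃ c ∈ Icc α β, |t - c| ≤ 2 := by
      rcases le_total t α with h | h
      · exact ⟨α, ⟨le_rfl, hαβ⟩, abs_le.2 ⟨by linarith [ht.1], by linarith⟩⟩
      rcases le_total t β with h' | h'
      · exact ⟨t, ⟨h, h'⟩, by simp⟩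
      · exact ⟨β, ⟨hαβ, le_rfl⟩, abs_le.2 ⟨by linarith, by linarith [ht.2]⟩⟩
    have h5 := hl t ht c ⟨by linarith [hc.1], by linarith [hc.2]⟩
    have h6 := h1 0 (by omega) c hc
    rw [← hFg c hc] at h6
    have h7 := norm_add_le (F t - F c) (F c)
    rw [sub_add_cancel] at h7
    have h8 := mul_le_mul_of_nonneg_left hct (hA.trans h4)
    rw [pow_succ]
    linarith

lemma glob (k n : ℕ) (hn : n ≤ k + 2) {e : ℝ} (he : 0 < e) (hek : e * (k + 1) ≤ k + 2) (K : ℝ)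
    (hK : 0 ≤ K) : ∃ C, 0 ≤ C ∧ ∀ (α β : ℝ) (a : ℝ → Fin n → ℂ), α < β →
      B (α - 2) (β + 2) (k + 1) K a → ∀ w : ℝ → ℂ, (∀ t ∈ Ioo α β, ev (a t) (w t) = 0) →
      ∀ s, 0 < s → volume {t | t ∈ Ioo α β ∧ s < ‖deriv w t‖} ≤
        ENNReal.ofReal (C * max 1 (β - α) * s ^ (-e)) := by
  obtain ⟨C, hC, H⟩ := root k he hek n hn ((((k + 1 : ℕ) : ℝ) + 1) * K + K) (by positivity)
  refine ⟨C * 3, by positivity, fun α β a hαβ ha w hw s hs => ?_⟩
  have hN : (⌊2 * (β - α)⌋₊ : ℝ) ≤ 2 * (β - α) := Nat.floor_le (by linarith)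
  have hcov : {t | t ∈ Ioo α β ∧ s < ‖deriv w t‖} ⊆ ⋃ i ∈ Finset.range (⌊2 * (β - α)⌋₊ + 1),
      {t | t ∈ Ioo α β ∧ s < ‖deriv w t‖} ∩ Ioo (α + i / 2 - 1 / 2) (α + i / 2 + 1 / 2) := by
    intro t ht
    have h1 : (⌊2 * (t - α)⌋₊ : ℝ) ≤ 2 * (t - α) := Nat.floor_le (by linarith [ht.1.1])
    have h2 := Nat.lt_floor_add_one (2 * (t - α))
    refine mem_iUnion₂.2 ⟨⌊2 * (t - α)⌋₊, Finset.mem_range.2 (Nat.lt_succ_of_le
      (Nat.floor_le_floor (by linarith [ht.1.2]))), ht, by linarith, by linarith⟩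
  have hse : 0 < s ^ (-e) := by positivity
  refine (measure_mono hcov).trans ((measure_biUnion_finset_le _ _).trans
    ((Finset.sum_le_sum (g := fun _ => ENNReal.ofReal (C * s ^ (-e))) fun i hi => ?_).trans ?_))
  · obtain ⟨c, hc⟩ : ∃ c : ℝ, c = α + i / 2 := ⟨_, rfl⟩
    have hi' : (i : ℝ) ≤ ⌊2 * (β - α)⌋₊ := by
      exact_mod_cast Nat.lt_succ_iff.1 (Finset.mem_range.1 hi)
    have hi0 : (0 : ℝ) ≤ i := Nat.cast_nonneg i
    have hm : ∀ τ ∈ Ioo (-1 : ℝ) 1, c + 1 * τ ∈ Ioo (α - 2) (β + 2) := fun τ hτ =>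
      ⟨by linarith [hτ.1], by linarith [hτ.2]⟩
    have hb : B (-1) 1 (k + 1) ((((k + 1 : ℕ) : ℝ) + 1) * K + K)
        (sc (ContinuousLinearMap.id ℝ _) c 1 a) := by
      refine ⟨(sc_L' ha.1 hK _ (fun x => by simp) c 1 one_pos le_rfl hm).mono (by linarith),
        fun t ht => ?_⟩
      have := ha.2 _ (hm t ht)
      have h2 : 0 ≤ (((k + 1 : ℕ) : ℝ) + 1) * K := by positivity
      simp only [sc, ContinuousLinearMap.id_apply]; linarith
    have h1 := H _ hb (fun τ => w (c + τ)) {τ | c + τ ∈ Ioo α β}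
      (fun τ hτ => by simpa [sc] using hw _ hτ) s hs
    rw [← hc]
    refine (aff _ _ c 1 one_pos ?_).trans (by simpa using h1)
    intro t ⟨ht, ht'⟩
    simp only [div_one, mem_inter_iff, mem_ofPred_eq, deriv_comp_const_add, add_sub_cancel]
    exact ⟨ht, by linarith [ht'.1], by linarith [ht'.2]⟩
  · rw [Finset.sum_const, Finset.card_range, nsmul_eq_mul, ← ENNReal.ofReal_natCast,
      ← ENNReal.ofReal_mul (Nat.cast_nonneg _)]
    refine ENNReal.ofReal_le_ofReal ?_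
    push_cast
    have h1 : (⌊2 * (β - α)⌋₊ : ℝ) + 1 ≤ 3 * max 1 (β - α) := by
      linarith [le_max_left 1 (β - α), le_max_right 1 (β - α)]
    have h2 := mul_le_mul_of_nonneg_right h1 (mul_nonneg hC hse.le)
    linarith

lemma fin (k : ℕ) : ∃ C, 0 ≤ C ∧ ∀ (α β A : ℝ) (a : ℕ → ℝ → ℂ) (w : ℝ → ℂ), α < β → 0 < A →
    (∀ j ∈ Finset.Icc 1 (k + 2), ContDiffOn ℝ ((k + 1 : ℕ) : WithTop ℕ∞) (a j) (Icc α β) ∧
      (∀ i ≤ k + 1, ∀ t ∈ Icc α β, ‖iteratedDerivWithin i (a j) (Icc α β) t‖ ≤ A ^ j) ∧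
      ∀ s ∈ Icc α β, ∀ t ∈ Icc α β, ‖iteratedDerivWithin (k + 1) (a j) (Icc α β) s -
        iteratedDerivWithin (k + 1) (a j) (Icc α β) t‖ ≤ A ^ j * |s - t|) →
    (∀ t ∈ Ioo α β, w t ^ (k + 2) + ∑ j ∈ Finset.Icc 1 (k + 2), a j t * w t ^ (k + 2 - j) = 0) →
    ∀ s, 0 < s → volume {t | t ∈ Ioo α β ∧ s < ‖deriv w t‖} ≤
      ENNReal.ofReal (C * max 1 (β - α) * (A / s) ^ (((k : ℝ) + 2) / (k + 1))) := by
  obtain ⟨C, hC, H⟩ := glob k (k + 2) le_rfl (e := ((k : ℝ) + 2) / (k + 1)) (by positivity)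
    (le_of_eq (by field_simp)) (3 ^ (k + 1) * 1) (by positivity)
  refine ⟨C, hC, fun α β A a w hαβ hA ha hw s hs => ?_⟩
  have hj : ∀ i : Fin (k + 2), k + 2 - i ∈ Finset.Icc 1 (k + 2) := fun i =>
    Finset.mem_Icc.2 ⟨by have := i.2; omega, by omega⟩
  have hT : ∀ (x : ℝ) (c : Fin (k + 2) → ℂ), 0 ≤ x → (∀ i : Fin (k + 2), ‖c i‖ ≤ A ^ (k + 2 - i) * x) →
      ‖T (k + 2) A c‖ ≤ x := fun x c hx h => (pi_norm_le_iff_of_nonneg hx).2 fun i => by
    rw [T_norm hA, inv_mul_le_iff₀ (by positivity)]; exact h i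
  obtain ⟨F, -, hF, hB⟩ := ext hαβ.le zero_le_one (k + 1)
    (fun p t => T (k + 2) A fun i => iteratedDerivWithin p (a (k + 2 - i)) (Icc α β) t)
    (fun p hp t ht => (T (k + 2) A).hasFDerivAt.comp_hasDerivWithinAt t
      (hasDerivWithinAt_pi.2 fun i => by
        rw [iteratedDerivWithin_succ]
        exact ((ha _ (hj i)).1.differentiableOn_iteratedDerivWithin (by exact_mod_cast hp)
          (uniqueDiffOn_Icc hαβ) t ht).hasDerivWithinAt))
    (fun p hp t ht => hT 1 _ zero_le_one fun i => by simpa using (ha _ (hj i)).2.1 p hp t ht)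
    (fun s hs t ht => by
      rw [← map_sub, one_mul]
      exact hT _ _ (abs_nonneg _) fun i => (ha _ (hj i)).2.2 s hs t ht)
  have hA' : (A : ℂ) ≠ 0 := by exact_mod_cast hA.ne'
  have h1 := H α β F hαβ hB (fun t => w t / A) (fun t ht => by
    rw [hF t (Ioo_subset_Icc_self ht)]
    have h2 := ev_T hA (fun i : Fin (k + 2) => iteratedDerivWithin 0 (a (k + 2 - i)) (Icc α β) t)
      (w t / A)
    rw [mul_div_cancel₀ _ hA'] at h2
    refine (mul_eq_zero.1 (h2.trans ?_)).resolve_right (pow_ne_zero _ hA')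
    rw [← hw t ht, ev, lin]
    congr 1
    simp only [iteratedDerivWithin_zero]
    rw [Fin.sum_univ_eq_sum_range (fun i => a (k + 2 - i) t * w t ^ i)]
    refine Finset.sum_bij' (fun i _ => k + 2 - i) (fun j _ => k + 2 - j) ?_ ?_ ?_ ?_ ?_
    · intro i hi; simp only [Finset.mem_range, Finset.mem_Icc] at *; omega
    · intro i hi; simp only [Finset.mem_range, Finset.mem_Icc] at *; omega
    · intro i hi; simp only [Finset.mem_range] at *; omega
    · intro i hi; simp only [Finset.mem_Icc] at *; omega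
    · intro i hi
      rw [Finset.mem_range] at hi
      rw [show k + 2 - (k + 2 - i) = i by omega]) (s / A) (by positivity)
  refine (measure_mono ?_).trans (h1.trans (le_of_eq ?_))
  · intro t ht
    refine ⟨ht.1, ?_⟩
    rw [deriv_div_const, norm_div, Complex.norm_real, Real.norm_eq_abs, abs_of_pos hA]
    exact div_lt_div_of_pos_right ht.2 hA
  · rw [Real.rpow_neg (by positivity), ← Real.inv_rpow (by positivity), inv_div]

end Pool.Agent.H.MP_6562b9_an
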